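import Pool.Agent.Helper920_Ratio.Basic

set_option autoImplicit false
set_option linter.unusedSectionVars false
set_option linter.unnecessarySeqFocus false
set_option linter.unusedSimpArgs false

namespace Pool.Agent.Helper920.Ratio

open Finset

noncomputable section

variable {V : Type*} [Fintype V]

open Classical in
/-- Adjacency as an integer. -/
def a (G : SimpleGraph V) (v w : V) : ℤ := if G.Adj v w then 1 else 0

open Classical in
/-- Indicator of `J`. -/
def jI (J : Finset V) (w : V) : ℤ := if w ∈ J then 1 else 0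

open Classical in
/-- Indicator of the neighbourhood of `J`. -/
def nI (G : SimpleGraph V) (J : Finset V) (w : V) : ℤ := if ∃ u ∈ J, G.Adj u w then 1 else 0

open Classical in
/-- Indicator of `X G J`. -/
def xI (G : SimpleGraph V) (J : Finset V) (v : V) : ℤ :=
  if v ∉ J ∧ ∀ u ∈ J, ¬ G.Adj u v then 1 else 0

/-- The bilinear form of the adjacency matrix. -/
def S (G : SimpleGraph V) (P Q : V → ℤ) : ℤ := ∑ v, ∑ w, a G v w * P v * Q w

variable (G : SimpleGraph V)

lemma a_comm (v w : V) : a G v w = a G w v := by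
  unfold a
  by_cases h : G.Adj v w
  · rw [if_pos h, if_pos h.symm]
  · rw [if_neg h, if_neg (fun h' => h h'.symm)]

lemma a_nonneg (v w : V) : 0 ≤ a G v w := by unfold a; split <;> norm_num

lemma a_le_one (v w : V) : a G v w ≤ 1 := by unfold a; split <;> norm_num

lemma a_cases (v w : V) : a G v w = 0 ∨ a G v w = 1 := by unfold a; split <;> simp

lemma nI_cases (J : Finset V) (v : V) : nI G J v = 0 ∨ nI G J v = 1 := by
  unfold nI; split <;> simp

lemma xI_cases (J : Finset V) (v : V) : xI G J v = 0 ∨ xI G J v = 1 := by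
  unfold xI; split <;> simp

lemma nI_nonneg (J : Finset V) (v : V) : 0 ≤ nI G J v := by
  rcases nI_cases G J v with h | h <;> rw [h] <;> norm_num

lemma xI_nonneg (J : Finset V) (v : V) : 0 ≤ xI G J v := by
  rcases xI_cases G J v with h | h <;> rw [h] <;> norm_num

lemma S_comm (P Q : V → ℤ) : S G P Q = S G Q P := by
  unfold S
  rw [Finset.sum_comm]
  refine Finset.sum_congr rfl fun w _ => Finset.sum_congr rfl fun v _ => ?_
  rw [a_comm G v w]; ring

lemma S_add (P Q R : V → ℤ) : S G P (fun w => Q w + R w) = S G P Q + S G P R := by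
  unfold S
  rw [← Finset.sum_add_distrib]
  refine Finset.sum_congr rfl fun v _ => ?_
  rw [← Finset.sum_add_distrib]
  refine Finset.sum_congr rfl fun w _ => ?_
  ring

lemma S_mono (P Q P' Q' : V → ℤ) (hP : ∀ v, 0 ≤ P v) (hQ : ∀ v, 0 ≤ Q v)
    (hPP : ∀ v, P v ≤ P' v) (hQQ : ∀ v, Q v ≤ Q' v) : S G P Q ≤ S G P' Q' := by
  unfold S
  refine Finset.sum_le_sum fun v _ => Finset.sum_le_sum fun w _ => ?_
  have h1 : a G v w * P v ≤ a G v w * P' v := mul_le_mul_of_nonneg_left (hPP v) (a_nonneg G v w)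
  have h2 : 0 ≤ a G v w * P v := mul_nonneg (a_nonneg G v w) (hP v)
  exact mul_le_mul h1 (hQQ w) (hQ w) (h2.trans h1)

lemma S_nonneg (P Q : V → ℤ) (hP : ∀ v, 0 ≤ P v) (hQ : ∀ v, 0 ≤ Q v) : 0 ≤ S G P Q := by
  unfold S
  exact Finset.sum_nonneg fun v _ => Finset.sum_nonneg fun w _ =>
    mul_nonneg (mul_nonneg (a_nonneg G v w) (hP v)) (hQ w)

lemma S_one (d : ℤ) (hd : ∀ v, ∑ w, a G v w = d) (P : V → ℤ) :
    S G P (fun _ => 1) = d * ∑ v, P v := by
  unfold S
  rw [Finset.mul_sum]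
  refine Finset.sum_congr rfl fun v _ => ?_
  rw [← hd v, Finset.sum_mul]
  refine Finset.sum_congr rfl fun w _ => ?_
  ring

lemma S_zero (P Q : V → ℤ) (h : ∀ v w, a G v w * P v * Q w = 0) : S G P Q = 0 := by
  unfold S
  exact Finset.sum_eq_zero fun v _ => Finset.sum_eq_zero fun w _ => h v w

lemma part {J : Finset V} (hJ : Indep G J) (w : V) : jI J w + nI G J w + xI G J w = 1 := by
  unfold jI nI xI
  by_cases h1 : w ∈ J
  · have h2 : ¬ ∃ u ∈ J, G.Adj u w := fun ⟨u, hu, h⟩ => hJ u hu w h1 h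
    simp [h1, h2]
  · by_cases h2 : ∃ u ∈ J, G.Adj u w
    · have h3 : ¬ (w ∉ J ∧ ∀ u ∈ J, ¬ G.Adj u w) := by
        rintro ⟨_, h⟩
        obtain ⟨u, hu, hh⟩ := h2
        exact h u hu hh
      rw [if_neg h1, if_pos h2, if_neg h3]; norm_num
    · have h3 : w ∉ J ∧ ∀ u ∈ J, ¬ G.Adj u w := ⟨h1, fun u hu h => h2 ⟨u, hu, h⟩⟩
      rw [if_neg h1, if_neg h2, if_pos h3]; norm_num

lemma sum_jI (J : Finset V) : ∑ w, jI J w = (J.card : ℤ) := by
  classical
  unfold jI
  rw [Finset.sum_ite_mem, Finset.univ_inter]; simp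

lemma sum_xI (J : Finset V) : ∑ w, xI G J w = ((X G J).card : ℤ) := by
  classical
  unfold xI X
  rw [Finset.sum_ite]; simp

lemma S_JJ {J : Finset V} (hJ : Indep G J) : S G (jI J) (jI J) = 0 := by
  refine S_zero G _ _ fun v w => ?_
  unfold a jI
  by_cases h1 : v ∈ J <;> by_cases h2 : w ∈ J <;> simp [h1, h2]
  exact hJ v h1 w h2

lemma S_JX (J : Finset V) : S G (jI J) (xI G J) = 0 := by
  refine S_zero G _ _ fun v w => ?_
  unfold a jI xI
  by_cases h1 : v ∈ J
  · by_cases h2 : w ∉ J ∧ ∀ u ∈ J, ¬ G.Adj u w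
    · have := h2.2 v h1
      simp [this]
    · simp only [h2, if_false]; simp
  · simp [h1]

/-- The two edge counts. -/
lemma edges (d : ℤ) (hd : ∀ v, ∑ w, a G v w = d) {J : Finset V} (hJ : Indep G J) :
    S G (xI G J) (xI G J) - S G (nI G J) (nI G J) =
        d * ((X G J).card - ∑ w, nI G J w + J.card) ∧
      S G (nI G J) (nI G J) ≤ d * (∑ w, nI G J w - J.card) := by
  have hp : (fun _ : V => (1 : ℤ)) = fun w => (jI J w + nI G J w) + xI G J w := by
    funext w; exact (part G hJ w).symm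
  have e1 := S_one G d hd (xI G J)
  have e2 := S_one G d hd (nI G J)
  have e3 := S_one G d hd (jI J)
  rw [hp, S_add G _ (fun w => jI J w + nI G J w) (xI G J), S_add] at e1 e2 e3
  rw [S_comm G (xI G J) (jI J), S_JX, sum_xI, S_comm G (xI G J) (nI G J)] at e1
  rw [S_comm G (nI G J) (jI J)] at e2
  rw [S_JJ G hJ, S_JX, sum_jI] at e3
  have h0 : 0 ≤ S G (nI G J) (xI G J) := S_nonneg G _ _ (nI_nonneg G J) (xI_nonneg G J)
  constructor
  · linear_combination e1 - e2 + e3
  · nlinarith [e1, e2, e3, h0]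

lemma card_part {J : Finset V} (hJ : Indep G J) :
    (J.card : ℤ) + ∑ w, nI G J w + (X G J).card = Fintype.card V := by
  rw [← sum_jI, ← sum_xI, ← Finset.sum_add_distrib, ← Finset.sum_add_distrib,
    Finset.sum_congr rfl (fun w _ => part G hJ w)]
  simp

end

end Pool.Agent.Helper920.Ratio
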