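import Mathlib

set_option autoImplicit false

namespace Pool.Agent.Helper920.Ratio

open Finset

noncomputable section

variable {V : Type*} [Fintype V]

/-- `J` contains no edge of `G`. -/
def Indep (G : SimpleGraph V) (J : Finset V) : Prop := ∀ x ∈ J, ∀ y ∈ J, ¬ G.Adj x y

open Classical in
/-- The independent sets of size `k`. -/
def ind (G : SimpleGraph V) (k : ℕ) : Finset (Finset V) :=
  univ.filter (fun J => Indep G J ∧ J.card = k)

open Classical in
/-- The vertices that can be added to `J`. -/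
def X (G : SimpleGraph V) (J : Finset V) : Finset V :=
  univ.filter (fun v => v ∉ J ∧ ∀ u ∈ J, ¬ G.Adj u v)

lemma mem_ind {G : SimpleGraph V} {k : ℕ} {J : Finset V} :
    J ∈ ind G k ↔ Indep G J ∧ J.card = k := by
  simp [ind]

lemma mem_X {G : SimpleGraph V} {J : Finset V} {v : V} :
    v ∈ X G J ↔ v ∉ J ∧ ∀ u ∈ J, ¬ G.Adj u v := by
  simp [X]

open Classical in
/-- Extension counting. -/
lemma sum_card_X (G : SimpleGraph V) (K : ℕ) :
    ∑ J ∈ ind G K, (X G J).card = (K + 1) * (ind G (K + 1)).card := by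
  have h2 : (K + 1) * (ind G (K + 1)).card = ∑ J ∈ ind G (K + 1), J.card := by
    rw [Finset.sum_const_nat (m := K + 1) (fun J hJ => (mem_ind.1 hJ).2)]
    ring
  rw [h2, ← Finset.card_sigma, ← Finset.card_sigma]
  refine Finset.card_nbij' (fun p => (⟨insert p.2 p.1, p.2⟩ : (_ : Finset V) × V))
    (fun p => (⟨p.1.erase p.2, p.2⟩ : (_ : Finset V) × V)) ?_ ?_ ?_ ?_
  · rintro ⟨J, v⟩ h
    rw [Finset.mem_coe, Finset.mem_sigma] at h
    obtain ⟨hJ, hv⟩ := h
    simp only at hJ hv
    rw [mem_ind] at hJ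
    rw [mem_X] at hv
    rw [Finset.mem_coe, Finset.mem_sigma]
    refine ⟨?_, Finset.mem_insert_self _ _⟩
    rw [mem_ind]
    refine ⟨?_, by rw [Finset.card_insert_of_notMem hv.1, hJ.2]⟩
    intro x hx y hy hxy
    rw [Finset.mem_insert] at hx hy
    rcases hx with rfl | hx
    · rcases hy with rfl | hy
      · exact G.loopless.irrefl _ hxy
      · exact hv.2 y hy hxy.symm
    · rcases hy with rfl | hy
      · exact hv.2 x hx hxy
      · exact hJ.1 x hx y hy hxy
  · rintro ⟨J, v⟩ h
    rw [Finset.mem_coe, Finset.mem_sigma] at h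
    obtain ⟨hJ, hv⟩ := h
    simp only at hJ hv
    rw [mem_ind] at hJ
    rw [Finset.mem_coe, Finset.mem_sigma]
    refine ⟨?_, ?_⟩
    · rw [mem_ind]
      refine ⟨fun x hx y hy => hJ.1 x (Finset.mem_of_mem_erase hx) y (Finset.mem_of_mem_erase hy),
        ?_⟩
      simp only
      rw [Finset.card_erase_of_mem hv, hJ.2]; rfl
    · rw [mem_X]
      exact ⟨Finset.notMem_erase _ _, fun u hu => hJ.1 u (Finset.mem_of_mem_erase hu) v hv⟩
  · rintro ⟨J, v⟩ h
    rw [Finset.mem_coe, Finset.mem_sigma] at h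
    have hv := (mem_X.1 h.2).1
    simp only at hv ⊢
    rw [Finset.erase_insert hv]
  · rintro ⟨J, v⟩ h
    rw [Finset.mem_coe, Finset.mem_sigma] at h
    have hv := h.2
    simp only at hv ⊢
    rw [Finset.insert_erase hv]

open Classical in
/-- The swap `(J, u, v) ↦ (J - u + v, v, u)`. -/
lemma swap (G : SimpleGraph V) (K : ℕ) (f : Finset V → ℤ) :
    ∑ J ∈ ind G K, ∑ u ∈ J, ∑ v ∈ X G J, f (insert v (J.erase u)) =
      ∑ J ∈ ind G K, ∑ _u ∈ J, ∑ _v ∈ X G J, f J := by
  have e1 : ∀ g : Finset V → V → V → ℤ,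
      ∑ J ∈ ind G K, ∑ u ∈ J, ∑ v ∈ X G J, g J u v =
        ∑ p ∈ (ind G K).sigma (fun J => J ×ˢ X G J), g p.1 p.2.1 p.2.2 := by
    intro g
    rw [Finset.sum_sigma]
    refine Finset.sum_congr rfl fun J _ => ?_
    rw [Finset.sum_product]
  rw [e1 (fun J u v => f (insert v (J.erase u))), e1 (fun J u v => f J)]
  have key : ∀ p : (_ : Finset V) × (V × V),
      p ∈ (ind G K).sigma (fun J => J ×ˢ X G J) →
      (⟨insert p.2.2 (p.1.erase p.2.1), (p.2.2, p.2.1)⟩ : (_ : Finset V) × (V × V)) ∈
        (ind G K).sigma (fun J => J ×ˢ X G J) ∧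
      insert p.2.1 ((insert p.2.2 (p.1.erase p.2.1)).erase p.2.2) = p.1 := by
    rintro ⟨J, u, v⟩ h
    rw [Finset.mem_sigma, Finset.mem_product] at h
    obtain ⟨hJ, hu, hv⟩ := h
    simp only at hJ hu hv ⊢
    rw [mem_ind] at hJ
    rw [mem_X] at hv
    have hvu : v ≠ u := fun h => hv.1 (h ▸ hu)
    have hve : v ∉ J.erase u := fun h => hv.1 (Finset.mem_of_mem_erase h)
    refine ⟨?_, ?_⟩
    · rw [Finset.mem_sigma, Finset.mem_product]
      refine ⟨?_, Finset.mem_insert_self _ _, ?_⟩
      · rw [mem_ind]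
        refine ⟨?_, ?_⟩
        · intro x hx y hy hxy
          rw [Finset.mem_insert] at hx hy
          rcases hx with rfl | hx
          · rcases hy with rfl | hy
            · exact G.loopless.irrefl _ hxy
            · exact hv.2 y (Finset.mem_of_mem_erase hy) hxy.symm
          · rcases hy with rfl | hy
            · exact hv.2 x (Finset.mem_of_mem_erase hx) hxy
            · exact hJ.1 x (Finset.mem_of_mem_erase hx) y (Finset.mem_of_mem_erase hy) hxy
        · simp only
          rw [Finset.card_insert_of_notMem hve, Finset.card_erase_of_mem hu, ← hJ.2]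
          have : 0 < J.card := Finset.card_pos.2 ⟨u, hu⟩
          omega
      · rw [mem_X]
        refine ⟨?_, ?_⟩
        · intro h
          rw [Finset.mem_insert] at h
          rcases h with h | h
          · exact hvu h.symm
          · exact Finset.notMem_erase _ _ h
        · intro t ht hadj
          rw [Finset.mem_insert] at ht
          rcases ht with rfl | ht
          · exact hv.2 u hu hadj.symm
          · exact hJ.1 t (Finset.mem_of_mem_erase ht) u hu hadj
    · rw [Finset.erase_insert hve, Finset.insert_erase hu]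
  refine Finset.sum_nbij' (fun p => (⟨insert p.2.2 (p.1.erase p.2.1), (p.2.2, p.2.1)⟩ :
      (_ : Finset V) × (V × V)))
    (fun p => (⟨insert p.2.2 (p.1.erase p.2.1), (p.2.2, p.2.1)⟩ :
      (_ : Finset V) × (V × V))) (fun p hp => (key p hp).1) (fun p hp => (key p hp).1) ?_ ?_ ?_
  · rintro p hp
    have h := (key p hp).2
    obtain ⟨J, u, v⟩ := p
    simp only at h ⊢
    rw [h]
  · rintro p hp
    have h := (key p hp).2
    obtain ⟨J, u, v⟩ := p
    simp only at h ⊢
    rw [h]
  · rintro p hp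
    rfl

end

end Pool.Agent.Helper920.Ratio
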