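import Pool.Agent.Helper920_Ratio.Main

set_option autoImplicit false
set_option linter.unusedSectionVars false
set_option linter.unnecessarySeqFocus false
set_option linter.unusedSimpArgs false

namespace Pool.Agent.Helper920.Ratio

open Finset

noncomputable section

/-- `m` disjoint copies of `K_{d,d}`, written as in the frozen statement. -/
abbrev Hg (d m : ℕ) : SimpleGraph (Fin m × Bool × Fin d) :=
  SimpleGraph.fromRel (fun x y : Fin m × Bool × Fin d => x.1 = y.1 ∧ x.2.1 ≠ y.2.1)

lemma Hg_adj {d m : ℕ} (x y : Fin m × Bool × Fin d) :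
    (Hg d m).Adj x y ↔ x.1 = y.1 ∧ x.2.1 ≠ y.2.1 := by
  rw [SimpleGraph.fromRel_adj]
  constructor
  · rintro ⟨_, h | h⟩
    · exact h
    · exact ⟨h.1.symm, h.2.symm⟩
  · intro h
    refine ⟨?_, Or.inl h⟩
    rintro rfl
    exact h.2 rfl

lemma H_copy {d m K j : ℕ} (hK : K + j = d * m) (hj : j + 1 ≤ d)
    {J : Finset (Fin m × Bool × Fin d)} (hJ : Indep (Hg d m) J) (hc : J.card = K) (c : Fin m) :
    ∃ u ∈ J, u.1 = c := by
  classical
  by_contra hcon
  push Not at hcon
  have h1 : J.card ≤ ((Finset.univ.erase c) ×ˢ (Finset.univ : Finset (Fin d))).card := by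
    refine Finset.card_le_card_of_injOn (fun x => (x.1, x.2.2)) ?_ ?_
    · intro x hx
      rw [Finset.mem_coe, Finset.mem_product]
      exact ⟨Finset.mem_erase.2 ⟨hcon x hx, Finset.mem_univ _⟩, Finset.mem_univ _⟩
    · rintro ⟨x1, x2, x3⟩ hx ⟨y1, y2, y3⟩ hy hxy
      simp only [Prod.mk.injEq] at hxy
      obtain ⟨rfl, rfl⟩ := hxy
      by_cases h : x2 = y2
      · rw [h]
      · exact absurd ((Hg_adj (x1, x2, x3) (x1, y2, x3)).2 ⟨rfl, h⟩)
          (hJ _ (Finset.mem_coe.1 hx) _ (Finset.mem_coe.1 hy))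
  rw [Finset.card_product, Finset.card_erase_of_mem (Finset.mem_univ c), Finset.card_univ,
    Finset.card_univ, Fintype.card_fin, Fintype.card_fin, hc] at h1
  have hm : 1 ≤ m := by
    have := c.isLt
    omega
  obtain ⟨m', rfl⟩ : ∃ m', m = m' + 1 := ⟨m - 1, by omega⟩
  rw [Nat.add_sub_cancel] at h1
  have e : d * (m' + 1) = m' * d + d := by ring
  omega

lemma H_X {d m K j : ℕ} (hK : K + j = d * m) (hj : j + 1 ≤ d)
    {J : Finset (Fin m × Bool × Fin d)} (hJ : Indep (Hg d m) J) (hc : J.card = K) :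
    (X (Hg d m) J).card = j := by
  classical
  have hdisj : Disjoint J (X (Hg d m) J) := by
    rw [Finset.disjoint_left]
    intro x hx hx2
    exact (mem_X.1 hx2).1 hx
  have hadj : ∀ p ∈ J ∪ X (Hg d m) J, ∀ p' ∈ J ∪ X (Hg d m) J, ¬ (Hg d m).Adj p p' := by
    intro p hp p' hp' hadj
    rw [Finset.mem_union] at hp hp'
    rcases hp with hp | hp
    · rcases hp' with hp' | hp'
      · exact hJ p hp p' hp' hadj
      · exact (mem_X.1 hp').2 p hp hadj
    · rcases hp' with hp' | hp'
      · exact (mem_X.1 hp).2 p' hp' hadj.symm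
      · obtain ⟨u, hu, huc⟩ := H_copy hK hj hJ hc p.1
        rw [Hg_adj] at hadj
        have h1 := (mem_X.1 hp).2 u hu
        have h2 := (mem_X.1 hp').2 u hu
        rw [Hg_adj] at h1 h2
        have h3 : u.2.1 = p.2.1 := by
          by_contra h; exact h1 ⟨huc, h⟩
        have h4 : u.2.1 = p'.2.1 := by
          by_contra h; exact h2 ⟨huc.trans hadj.1, h⟩
        exact hadj.2 (h3.symm.trans h4)
  have hcard : (J ∪ X (Hg d m) J).card = (Finset.univ : Finset (Fin m × Fin d)).card := by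
    have himg : (J ∪ X (Hg d m) J).image (fun x => (x.1, x.2.2)) =
        (Finset.univ : Finset (Fin m × Fin d)) := by
      rw [Finset.eq_univ_iff_forall]
      rintro ⟨c, i⟩
      obtain ⟨u, hu, huc⟩ := H_copy hK hj hJ hc c
      rw [Finset.mem_image]
      refine ⟨(c, u.2.1, i), ?_, rfl⟩
      rw [Finset.mem_union]
      by_cases h : (c, u.2.1, i) ∈ J
      · exact Or.inl h
      · refine Or.inr ?_
        rw [mem_X]
        refine ⟨h, fun t ht hadj => ?_⟩
        rw [Hg_adj] at hadj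
        simp only at hadj
        exact hJ t ht u hu ((Hg_adj _ _).2 ⟨hadj.1.trans huc.symm, hadj.2⟩)
    rw [← himg, Finset.card_image_of_injOn]
    rintro ⟨x1, x2, x3⟩ hx ⟨y1, y2, y3⟩ hy hxy
    simp only [Prod.mk.injEq] at hxy
    obtain ⟨rfl, rfl⟩ := hxy
    by_cases h : x2 = y2
    · rw [h]
    · exact absurd ((Hg_adj (x1, x2, x3) (x1, y2, x3)).2 ⟨rfl, h⟩)
        (hadj _ (Finset.mem_coe.1 hx) _ (Finset.mem_coe.1 hy))
  rw [Finset.card_union_of_disjoint hdisj, Finset.card_univ, Fintype.card_prod, Fintype.card_fin,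
    Fintype.card_fin, hc] at hcard
  have e : m * d = d * m := mul_comm _ _
  omega

lemma main_H {d m K j : ℕ} (hK : K + j = d * m) (hj : j + 1 ≤ d) :
    (K + 1) * (ind (Hg d m) (K + 1)).card = j * (ind (Hg d m) K).card := by
  rw [← sum_card_X, Finset.sum_const_nat (m := j)
    (fun J hJ => H_X hK hj (mem_ind.1 hJ).1 (mem_ind.1 hJ).2), mul_comm]

/-- `cliqueFinset` of the complement counts independent sets. -/
lemma card_clique {V : Type*} [Fintype V] [DecidableEq V] (G : SimpleGraph V)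
    [DecidableRel Gᶜ.Adj] (k : ℕ) : (Gᶜ.cliqueFinset k).card = (ind G k).card := by
  congr 1
  ext J
  rw [SimpleGraph.mem_cliqueFinset_iff, SimpleGraph.isNClique_iff, mem_ind]
  refine and_congr_left fun _ => ?_
  rw [SimpleGraph.isClique_iff, Set.Pairwise]
  constructor
  · intro h x hx y hy hxy
    have := h hx hy hxy.ne
    rw [SimpleGraph.compl_adj] at this
    exact this.2 hxy
  · intro h x hx y hy hxy
    rw [SimpleGraph.compl_adj]
    exact ⟨hxy, h x hx y hy⟩

end

end Pool.Agent.Helper920.Ratio
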