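import Pool.Agent.Helper920_Ratio.Alg

set_option autoImplicit false
set_option linter.unusedSectionVars false
set_option linter.unnecessarySeqFocus false
set_option linter.unusedSimpArgs false

namespace Pool.Agent.Helper920.Ratio

open Finset

noncomputable section

variable {V : Type*} [Fintype V] (G : SimpleGraph V)

/-- Indicator of the neighbours of `v` that lie in `X G J`. -/
def gI (J : Finset V) (v w : V) : ℤ := xI G J w * a G v w

lemma gI_nonneg (J : Finset V) (v w : V) : 0 ≤ gI G J v w :=
  mul_nonneg (xI_nonneg G J w) (a_nonneg G v w)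

open Classical in
/-- Indicator of the vertices whose only neighbour in `J` is `u`. -/
def pI (J : Finset V) (u w : V) : ℤ := nI G J w - nI G (J.erase u) w

lemma nI_mono {J J' : Finset V} (h : J ⊆ J') (w : V) : nI G J w ≤ nI G J' w := by
  unfold nI
  by_cases h1 : ∃ u ∈ J, G.Adj u w
  · have h2 : ∃ u ∈ J', G.Adj u w := by
      obtain ⟨u, hu, hh⟩ := h1
      exact ⟨u, h hu, hh⟩
    rw [if_pos h1, if_pos h2]
  · rw [if_neg h1]; split <;> norm_num

open Classical in
lemma pI_nonneg (J : Finset V) (u w : V) : 0 ≤ pI G J u w := by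
  unfold pI
  have := nI_mono G (Finset.erase_subset u J) w
  linarith

open Classical in
lemma sum_pI (J : Finset V) (w : V) : ∑ u ∈ J, pI G J u w ≤ nI G J w := by
  by_cases h : ∃ t ∈ J, G.Adj t w
  · obtain ⟨t, ht, hw⟩ := h
    rw [Finset.sum_eq_single_of_mem t ht]
    · unfold pI
      have := nI_nonneg G (J.erase t) w
      linarith
    · intro u _ hu
      unfold pI nI
      rw [if_pos ⟨t, ht, hw⟩, if_pos ⟨t, Finset.mem_erase.2 ⟨hu.symm, ht⟩, hw⟩]
      norm_num
  · have h0 : nI G J w = 0 := by unfold nI; rw [if_neg h]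
    rw [h0]
    refine Finset.sum_nonpos fun u _ => ?_
    unfold pI
    rw [h0]
    have := nI_nonneg G (J.erase u) w
    linarith

lemma S_sum {ι : Type*} (s : Finset ι) (P : V → ℤ) (Q : ι → V → ℤ) :
    S G P (fun w => ∑ i ∈ s, Q i w) = ∑ i ∈ s, S G P (Q i) := by
  unfold S
  have h : ∀ v, ∑ w, a G v w * P v * ∑ i ∈ s, Q i w = ∑ i ∈ s, ∑ w, a G v w * P v * Q i w := by
    intro v
    rw [Finset.sum_comm (s := s)]
    refine Finset.sum_congr rfl fun w _ => ?_
    rw [Finset.mul_sum]
  rw [Finset.sum_congr rfl (fun v _ => h v), Finset.sum_comm]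

lemma S_sq (P Q : V → ℤ) :
    S G (fun w => P w + Q w) (fun w => P w + Q w) = S G P P + 2 * S G P Q + S G Q Q := by
  rw [S_add, S_comm G _ P, S_comm G _ Q, S_add, S_add, S_comm G Q P]; ring

open Classical in
lemma step {J : Finset V} {u v : V} (_hv : v ∈ X G J) :
    S G (nI G J) (nI G J) - 2 * S G (nI G J) (pI G J u) + 2 * S G (nI G J) (gI G J v)
        - 2 * S G (gI G J v) (pI G J u) + S G (gI G J v) (gI G J v) ≤
      S G (nI G (insert v (J.erase u))) (nI G (insert v (J.erase u))) := by
  set m := nI G (J.erase u) with hm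
  have hn : nI G J = fun w => m w + pI G J u w := by
    funext w; rw [hm]; unfold pI; ring
  have h1 : S G (fun w => m w + gI G J v w) (fun w => m w + gI G J v w) ≤
      S G (nI G (insert v (J.erase u))) (nI G (insert v (J.erase u))) := by
    have h0 : ∀ w, 0 ≤ m w + gI G J v w := fun w =>
      add_nonneg (nI_nonneg G _ w) (gI_nonneg G J v w)
    have h2 : ∀ w, m w + gI G J v w ≤ nI G (insert v (J.erase u)) w := by
      intro w
      have hmo := nI_mono G (Finset.subset_insert v (J.erase u)) w
      unfold gI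
      rcases xI_cases G J w with hx | hx
      · rw [hx, zero_mul, add_zero]; exact hmo
      · rcases a_cases G v w with ha | ha
        · rw [ha, mul_zero, add_zero]; exact hmo
        · have hx' : w ∉ J ∧ ∀ t ∈ J, ¬ G.Adj t w := by
            by_contra hcon
            unfold xI at hx
            rw [if_neg hcon] at hx
            norm_num at hx
          have ha' : G.Adj v w := by
            by_contra hcon
            unfold a at ha
            rw [if_neg hcon] at ha
            norm_num at ha
          have e1 : m w = 0 := by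
            rw [hm]; unfold nI
            rw [if_neg]
            rintro ⟨t, ht, htw⟩
            exact hx'.2 t (Finset.mem_of_mem_erase ht) htw
          have e2 : nI G (insert v (J.erase u)) w = 1 := by
            unfold nI
            rw [if_pos ⟨v, Finset.mem_insert_self _ _, ha'⟩]
          rw [e1, e2, hx, ha]; norm_num
    exact S_mono G _ _ _ _ h0 h0 h2 h2
  have h2 : S G (nI G J) (nI G J) = S G m m + 2 * S G m (pI G J u)
      + S G (pI G J u) (pI G J u) := by
    rw [hn, S_sq]
  have h3 : S G (nI G J) (pI G J u) = S G m (pI G J u) + S G (pI G J u) (pI G J u) := by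
    conv_lhs => rw [hn]
    rw [S_comm, S_add, S_comm G _ m]
  have h4 : S G (nI G J) (gI G J v) = S G m (gI G J v) + S G (gI G J v) (pI G J u) := by
    conv_lhs => rw [hn]
    rw [S_comm, S_add, S_comm G _ m]
  have h5 : 0 ≤ S G (pI G J u) (pI G J u) := S_nonneg G _ _ (pI_nonneg G J u) (pI_nonneg G J u)
  rw [S_sq] at h1
  linarith

open Classical in
lemma locsum {J : Finset V} :
    ∑ v ∈ X G J, (((J.card : ℤ) - 2) * S G (nI G J) (nI G J)
        + 2 * ((J.card : ℤ) - 1) * S G (nI G J) (gI G J v)
        + (J.card : ℤ) * S G (gI G J v) (gI G J v)) ≤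
      ∑ u ∈ J, ∑ v ∈ X G J,
        S G (nI G (insert v (J.erase u))) (nI G (insert v (J.erase u))) := by
  rw [Finset.sum_comm]
  refine Finset.sum_le_sum fun v hv => ?_
  have h1 : ∑ u ∈ J, (S G (nI G J) (nI G J) - 2 * S G (nI G J) (pI G J u)
      + 2 * S G (nI G J) (gI G J v) - 2 * S G (gI G J v) (pI G J u)
      + S G (gI G J v) (gI G J v)) ≤
      ∑ u ∈ J, S G (nI G (insert v (J.erase u))) (nI G (insert v (J.erase u))) :=
    Finset.sum_le_sum fun u _ => step G hv
  refine le_trans ?_ h1
  have h2 : ∑ u ∈ J, S G (nI G J) (pI G J u) ≤ S G (nI G J) (nI G J) := by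
    rw [← S_sum]
    exact S_mono G _ _ _ _ (nI_nonneg G J) (fun w => Finset.sum_nonneg fun u _ => pI_nonneg G J u w)
      (fun _ => le_rfl) (fun w => sum_pI G J w)
  have h3 : ∑ u ∈ J, S G (gI G J v) (pI G J u) ≤ S G (nI G J) (gI G J v) := by
    rw [← S_sum, S_comm G (nI G J)]
    exact S_mono G _ _ _ _ (gI_nonneg G J v) (fun w => Finset.sum_nonneg fun u _ => pI_nonneg G J u w)
      (fun _ => le_rfl) (fun w => sum_pI G J w)
  have h4 : ∑ u ∈ J, (S G (nI G J) (nI G J) - 2 * S G (nI G J) (pI G J u)
      + 2 * S G (nI G J) (gI G J v) - 2 * S G (gI G J v) (pI G J u)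
      + S G (gI G J v) (gI G J v)) =
      (J.card : ℤ) * S G (nI G J) (nI G J) - 2 * ∑ u ∈ J, S G (nI G J) (pI G J u)
      + 2 * (J.card : ℤ) * S G (nI G J) (gI G J v) - 2 * ∑ u ∈ J, S G (gI G J v) (pI G J u)
      + (J.card : ℤ) * S G (gI G J v) (gI G J v) := by
    simp only [Finset.sum_add_distrib, Finset.sum_sub_distrib, ← Finset.mul_sum,
      Finset.sum_const, nsmul_eq_mul]
    ring
  rw [h4]
  linarith

lemma sumX (J : Finset V) (F : V → ℤ) : ∑ v ∈ X G J, F v = ∑ v, xI G J v * F v := by
  classical
  unfold X xI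
  rw [Finset.sum_filter]
  refine Finset.sum_congr rfl fun v _ => ?_
  split <;> simp

/-- Number of neighbours in `X G J`. -/
def dX (J : Finset V) (z : V) : ℤ := ∑ w, a G z w * xI G J w

lemma deg_split (d : ℤ) (hd : ∀ v, ∑ w, a G v w = d) {J : Finset V} (hJ : Indep G J) (z : V)
    (hz : xI G J z = 1) : ∑ w, a G z w * nI G J w = d - dX G J z := by
  have hz' : z ∉ J ∧ ∀ t ∈ J, ¬ G.Adj t z := by
    by_contra hcon
    unfold xI at hz
    rw [if_neg hcon] at hz
    norm_num at hz
  have h1 : ∑ w, a G z w * nI G J w + ∑ w, a G z w * xI G J w = d := by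
    rw [← hd z, ← Finset.sum_add_distrib]
    refine Finset.sum_congr rfl fun w _ => ?_
    have hp := part G hJ w
    have h0 : a G z w * jI J w = 0 := by
      unfold a jI
      by_cases h1 : G.Adj z w
      · by_cases h2 : w ∈ J
        · exact absurd h1.symm (hz'.2 w h2)
        · rw [if_neg h2, mul_zero]
      · rw [if_neg h1, zero_mul]
    linear_combination (a G z w) * hp - h0
  unfold dX
  linarith

/-- The sum over ordered edges inside `X G J`. -/
lemma AC (d : ℤ) (hd : ∀ v, ∑ w, a G v w = d) {J : Finset V} (hJ : Indep G J) :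
    (2 * d - (X G J).card) * S G (xI G J) (xI G J) ≤
      2 * ∑ v ∈ X G J, S G (nI G J) (gI G J v) + ∑ v ∈ X G J, S G (gI G J v) (gI G J v) := by
  have hA1 : ∑ v ∈ X G J, S G (nI G J) (gI G J v) =
      ∑ y, ∑ z, a G y z * xI G J y * xI G J z * (d - dX G J z) := by
    rw [sumX]
    refine Finset.sum_congr rfl fun v _ => ?_
    unfold S gI
    rw [Finset.sum_comm, Finset.mul_sum]
    refine Finset.sum_congr rfl fun z _ => ?_
    rcases xI_cases G J z with hz | hz
    · rw [hz]; simp
    · rw [← deg_split G d hd hJ z hz, Finset.mul_sum, Finset.mul_sum]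
      refine Finset.sum_congr rfl fun w _ => ?_
      rw [a_comm G w z]; ring
  have hA2 : ∑ v ∈ X G J, S G (nI G J) (gI G J v) =
      ∑ y, ∑ z, a G y z * xI G J y * xI G J z * (d - dX G J y) := by
    rw [hA1, Finset.sum_comm]
    refine Finset.sum_congr rfl fun v _ => Finset.sum_congr rfl fun w _ => ?_
    rw [a_comm G w v]; ring
  have hC : ∑ v ∈ X G J, S G (gI G J v) (gI G J v) =
      ∑ y, ∑ z, a G y z * xI G J y * xI G J z * ∑ v, xI G J v * (a G v y * a G v z) := by
    rw [sumX]
    unfold S gI
    simp only [Finset.mul_sum]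
    rw [Finset.sum_comm]
    refine Finset.sum_congr rfl fun y _ => ?_
    rw [Finset.sum_comm]
    refine Finset.sum_congr rfl fun z _ => ?_
    refine Finset.sum_congr rfl fun v _ => ?_
    ring
  have hcod : ∀ y z, dX G J y + dX G J z - (X G J).card ≤
      ∑ v, xI G J v * (a G v y * a G v z) := by
    intro y z
    unfold dX
    rw [← sum_xI, ← Finset.sum_add_distrib, ← Finset.sum_sub_distrib]
    refine Finset.sum_le_sum fun v _ => ?_
    rw [a_comm G v y, a_comm G v z]
    rcases xI_cases G J v with hx | hx <;> rcases a_cases G y v with h1 | h1 <;>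
      rcases a_cases G z v with h2 | h2 <;> rw [hx, h1, h2] <;> norm_num
  calc (2 * d - (X G J).card) * S G (xI G J) (xI G J)
      = ∑ y, ∑ z, a G y z * xI G J y * xI G J z * (2 * d - (X G J).card) := by
        unfold S
        rw [Finset.mul_sum]
        refine Finset.sum_congr rfl fun y _ => ?_
        rw [Finset.mul_sum]
        refine Finset.sum_congr rfl fun z _ => ?_
        ring
    _ ≤ ∑ y, ∑ z, a G y z * xI G J y * xI G J z *
          ((d - dX G J z) + (d - dX G J y) + ∑ v, xI G J v * (a G v y * a G v z)) := by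
        refine Finset.sum_le_sum fun y _ => Finset.sum_le_sum fun z _ => ?_
        refine mul_le_mul_of_nonneg_left ?_
          (mul_nonneg (mul_nonneg (a_nonneg G y z) (xI_nonneg G J y)) (xI_nonneg G J z))
        have := hcod y z
        linarith
    _ = _ := by
        have e : 2 * ∑ v ∈ X G J, S G (nI G J) (gI G J v) =
            ∑ v ∈ X G J, S G (nI G J) (gI G J v) + ∑ v ∈ X G J, S G (nI G J) (gI G J v) := by
          ring
        rw [e, hC]
        nth_rewrite 1 [hA1]
        rw [hA2, ← Finset.sum_add_distrib, ← Finset.sum_add_distrib]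
        refine Finset.sum_congr rfl fun y _ => ?_
        rw [← Finset.sum_add_distrib, ← Finset.sum_add_distrib]
        refine Finset.sum_congr rfl fun z _ => ?_
        ring

end

end Pool.Agent.Helper920.Ratio
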