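import Pool.Agent.Helper920_Ratio.Loc

set_option autoImplicit false
set_option linter.unusedSectionVars false
set_option linter.unnecessarySeqFocus false
set_option linter.unusedSimpArgs false

namespace Pool.Agent.Helper920.Ratio

open Finset

noncomputable section

variable {V : Type*} [Fintype V] (G : SimpleGraph V)

lemma star (d : ℤ) (hd : ∀ v, ∑ w, a G v w = d) (K : ℕ) (hK : 1 ≤ K) :
    ∑ J ∈ ind G K, (((K : ℤ) - 1) * ((2 * d - (X G J).card) * S G (xI G J) (xI G J))
      - 2 * (X G J).card * S G (nI G J) (nI G J)) ≤ 0 := by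
  classical
  have hsw := swap G K (fun J => S G (nI G J) (nI G J))
  have h1 : ∑ J ∈ ind G K, ∑ v ∈ X G J, (((K : ℤ) - 2) * S G (nI G J) (nI G J)
        + 2 * ((K : ℤ) - 1) * S G (nI G J) (gI G J v)
        + (K : ℤ) * S G (gI G J v) (gI G J v)) ≤
      ∑ J ∈ ind G K, ∑ _u ∈ J, ∑ _v ∈ X G J, S G (nI G J) (nI G J) := by
    have : ∑ J ∈ ind G K, ∑ v ∈ X G J, (((K : ℤ) - 2) * S G (nI G J) (nI G J)
        + 2 * ((K : ℤ) - 1) * S G (nI G J) (gI G J v)
        + (K : ℤ) * S G (gI G J v) (gI G J v)) ≤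
        ∑ J ∈ ind G K, ∑ u ∈ J, ∑ v ∈ X G J,
          S G (nI G (insert v (J.erase u))) (nI G (insert v (J.erase u))) := by
      refine Finset.sum_le_sum fun J hJ => ?_
      have h := locsum G (J := J)
      rw [(mem_ind.1 hJ).2] at h
      exact h
    exact this.trans (le_of_eq hsw)
  have h2 : ∀ J ∈ ind G K, (((K : ℤ) - 1) * ((2 * d - (X G J).card) * S G (xI G J) (xI G J))
      - 2 * (X G J).card * S G (nI G J) (nI G J)) ≤
      ∑ v ∈ X G J, (((K : ℤ) - 2) * S G (nI G J) (nI G J)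
        + 2 * ((K : ℤ) - 1) * S G (nI G J) (gI G J v)
        + (K : ℤ) * S G (gI G J v) (gI G J v)) -
      ∑ _u ∈ J, ∑ _v ∈ X G J, S G (nI G J) (nI G J) := by
    intro J hJ
    have hac := AC G d hd (mem_ind.1 hJ).1
    have hC : 0 ≤ ∑ v ∈ X G J, S G (gI G J v) (gI G J v) :=
      Finset.sum_nonneg fun v _ => S_nonneg G _ _ (gI_nonneg G J v) (gI_nonneg G J v)
    have hK1 : (0 : ℤ) ≤ (K : ℤ) - 1 := by
      have : (1 : ℤ) ≤ K := by exact_mod_cast hK
      linarith
    have hm := mul_le_mul_of_nonneg_left hac hK1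
    simp only [Finset.sum_add_distrib, ← Finset.mul_sum, Finset.sum_const, nsmul_eq_mul]
    rw [(mem_ind.1 hJ).2]
    nlinarith
  refine (Finset.sum_le_sum h2).trans ?_
  rw [Finset.sum_sub_distrib]
  linarith

lemma numeric (d j x q EX EN : ℤ) (h : EX - EN = 2 * d * (x - j)) (h1 : EN ≤ d * (2 * j - x))
    (h2 : 0 ≤ EN) (h3 : 0 ≤ EX) (h4 : 0 ≤ x) (h5 : 1 ≤ j) (h6 : j + 1 ≤ d)
    (h7 : 2 * d - j - 1 ≤ q) :
    4 * d * j * (x - j) ≤ q * ((2 * d - x) * EX) - 2 * x * EN := by
  have hx2 : x ≤ 2 * j := by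
    by_contra hcon
    push Not at hcon
    nlinarith
  rcases le_or_gt x j with hx | hx
  · have hq : 2 ≤ q := by linarith
    have hs : x ≤ 2 * d - x := by linarith
    have hR : 0 ≤ q * (2 * d - x) - 2 * x := by nlinarith
    have hEN : EN = EX + 2 * d * (j - x) := by linarith
    rw [hEN]
    have e1 : 0 ≤ EX * (q * (2 * d - x) - 2 * x) := mul_nonneg h3 hR
    have e2 : 0 ≤ d * ((j - x) * (j - x)) := mul_nonneg (by linarith) (mul_self_nonneg _)
    nlinarith
  · obtain ⟨t, ht⟩ : ∃ t, x = 2 * j - t := ⟨2 * j - x, by ring⟩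
    have ht0 : 0 ≤ t := by linarith
    have htj : t + 1 ≤ j := by linarith
    have hq : j + 1 ≤ q := by linarith
    have hs : t + 2 ≤ 2 * d - x := by linarith
    obtain ⟨R, hR⟩ : ∃ R, R = q * (2 * d - x) := ⟨_, rfl⟩
    have hR1 : (j + 1) * (t + 2) ≤ R := by
      rw [hR]
      exact mul_le_mul hq hs (by linarith) (by linarith)
    have hEX : EX = EN + 2 * d * (x - j) := by linarith
    have goal2 : 0 ≤ 2 * d * (x - j) * (R - 2 * j) + EN * (R - 2 * x) := by
      have hR2 : 2 * j ≤ R := by nlinarith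
      rcases le_or_gt (2 * x) R with hc | hc
      · have e1 : 0 ≤ EN * (R - 2 * x) := mul_nonneg h2 (by linarith)
        have e2 : 0 ≤ 2 * d * (x - j) * (R - 2 * j) :=
          mul_nonneg (mul_nonneg (by linarith) (by linarith)) (by linarith)
        linarith
      · have e1 : d * (2 * j - x) * (R - 2 * x) ≤ EN * (R - 2 * x) :=
          mul_le_mul_of_nonpos_right h1 (by linarith)
        have e2 : 0 ≤ 2 * (x - j) * (R - 2 * j) + (2 * j - x) * (R - 2 * x) := by
          rw [ht]
          have e3 : (j + 1) * (t + 2) * (2 * j - t) ≤ R * (2 * j - t) :=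
            mul_le_mul_of_nonneg_right hR1 (by linarith)
          have e4 : 0 ≤ j * t * (2 * j - t) :=
            mul_nonneg (mul_nonneg (by linarith) ht0) (by linarith)
          nlinarith [mul_self_nonneg t]
        have e3 : 0 ≤ d * (2 * (x - j) * (R - 2 * j) + (2 * j - x) * (R - 2 * x)) :=
          mul_nonneg (by linarith) e2
        nlinarith
    have hfin : q * ((2 * d - x) * EX) = R * EX := by rw [hR]; ring
    rw [hfin, hEX]
    nlinarith

lemma card_le (d : ℤ) (hd : ∀ v, ∑ w, a G v w = d) (hd1 : 1 ≤ d) (M : ℕ)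
    (hV : Fintype.card V = 2 * M) {J : Finset V} (hJ : Indep G J) : J.card ≤ M := by
  have h1 := (edges G d hd hJ).2
  have h2 := S_nonneg G _ _ (nI_nonneg G J) (nI_nonneg G J)
  have h3 := card_part G hJ
  rw [hV] at h3
  push_cast at h3
  have h4 : (0 : ℤ) ≤ ∑ w, nI G J w - J.card := by
    by_contra hcon
    push Not at hcon
    nlinarith
  have h5 : (0 : ℤ) ≤ (X G J).card := by positivity
  have : (J.card : ℤ) ≤ M := by linarith
  exact_mod_cast this

lemma main_G (d : ℕ) (hd : ∀ v, ∑ w, a G v w = (d : ℤ)) (M K j : ℕ)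
    (hV : Fintype.card V = 2 * M) (hM : M = d ∨ 2 * d ≤ M) (hj : 1 ≤ j) (hjd : j + 1 ≤ d)
    (hK : K + j = M) :
    (K + 1) * (ind G (K + 1)).card ≤ j * (ind G K).card := by
  classical
  rw [← sum_card_X]
  have hK1 : 1 ≤ K := by rcases hM with h | h <;> omega
  rcases hM with hM | hM
  · -- `M = d`
    rw [mul_comm, ← smul_eq_mul, ← Finset.sum_const]
    refine Finset.sum_le_sum fun J hJ => ?_
    have hJ' := mem_ind.1 hJ
    have h3 := card_part G hJ'.1
    rw [hV, hJ'.2] at h3
    push_cast at h3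
    have hne : J.Nonempty := by
      rw [← Finset.card_pos, hJ'.2]; omega
    obtain ⟨u, hu⟩ := hne
    have h4 : (d : ℤ) ≤ ∑ w, nI G J w := by
      rw [← hd u]
      refine Finset.sum_le_sum fun w _ => ?_
      unfold a nI
      by_cases h : G.Adj u w
      · rw [if_pos h, if_pos ⟨u, hu, h⟩]
      · rw [if_neg h]; split <;> norm_num
    have h5 : ((X G J).card : ℤ) ≤ j := by
      have : (K : ℤ) + j = M := by exact_mod_cast hK
      have h6 : (M : ℤ) = d := by exact_mod_cast hM
      linarith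
    exact_mod_cast h5
  · have hs := star G (d : ℤ) hd K hK1
    have hT : ∀ J ∈ ind G K, 4 * (d : ℤ) * j * ((X G J).card - j) ≤
        (((K : ℤ) - 1) * ((2 * (d : ℤ) - (X G J).card) * S G (xI G J) (xI G J))
      - 2 * (X G J).card * S G (nI G J) (nI G J)) := by
      intro J hJ
      have hJ' := mem_ind.1 hJ
      have h3 := card_part G hJ'.1
      obtain ⟨e1, e2⟩ := edges G (d : ℤ) hd hJ'.1
      rw [hV, hJ'.2] at h3
      rw [hJ'.2] at e1 e2
      push_cast at h3
      have hKM : (K : ℤ) + j = M := by exact_mod_cast hK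
      have hMd : 2 * (d : ℤ) ≤ M := by exact_mod_cast hM
      have hN : ∑ w, nI G J w = (K : ℤ) + 2 * j - (X G J).card := by linarith
      rw [hN] at e1 e2
      refine numeric (d : ℤ) j (X G J).card ((K : ℤ) - 1) _ _ ?_ ?_ ?_ ?_ ?_ ?_ ?_ ?_
      · rw [e1]; ring
      · refine e2.trans (le_of_eq ?_); ring
      · exact S_nonneg G _ _ (nI_nonneg G J) (nI_nonneg G J)
      · exact S_nonneg G _ _ (xI_nonneg G J) (xI_nonneg G J)
      · positivity
      · exact_mod_cast hj
      · exact_mod_cast hjd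
      · linarith
    have h1 := (Finset.sum_le_sum hT).trans hs
    rw [← Finset.mul_sum, Finset.sum_sub_distrib, Finset.sum_const, nsmul_eq_mul] at h1
    have hpos : (0 : ℤ) < 4 * (d : ℤ) * j := by
      have : (0 : ℤ) < d := by exact_mod_cast (by omega : 0 < d)
      have : (0 : ℤ) < j := by exact_mod_cast (by omega : 0 < j)
      positivity
    have h2 : (∑ J ∈ ind G K, ((X G J).card : ℤ)) - (ind G K).card * j ≤ 0 := by
      by_contra hcon
      push Not at hcon
      have := mul_pos hpos hcon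
      linarith
    have h3 : (∑ J ∈ ind G K, ((X G J).card : ℤ)) ≤ j * (ind G K).card := by linarith
    exact_mod_cast h3

end

end Pool.Agent.Helper920.Ratio
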