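import Pool.Agent.Helper920_Ratio.H

set_option autoImplicit false
set_option linter.unusedSectionVars false
set_option linter.unnecessarySeqFocus false
set_option linter.unusedSimpArgs false

namespace Pool.Agent.Helper920.Ratio

open Finset

noncomputable section

variable {V : Type*} [Fintype V] (G : SimpleGraph V)

lemma star2 (K : ℕ) :
    ∑ J ∈ ind G K, (2 * ((K : ℤ) - 1) * (∑ v ∈ X G J, S G (nI G J) (gI G J v))
      - 2 * (X G J).card * S G (nI G J) (nI G J)) ≤ 0 := by
  classical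
  have hsw := swap G K (fun J => S G (nI G J) (nI G J))
  have h1 : ∑ J ∈ ind G K, ∑ v ∈ X G J, (((K : ℤ) - 2) * S G (nI G J) (nI G J)
        + 2 * ((K : ℤ) - 1) * S G (nI G J) (gI G J v)
        + (K : ℤ) * S G (gI G J v) (gI G J v)) ≤
      ∑ J ∈ ind G K, ∑ _u ∈ J, ∑ _v ∈ X G J, S G (nI G J) (nI G J) := by
    have : ∑ J ∈ ind G K, ∑ v ∈ X G J, (((K : ℤ) - 2) * S G (nI G J) (nI G J)
        + 2 * ((K : ℤ) - 1) * S G (nI G J) (gI G J v)
        + (K : ℤ) * S G (gI G J v) (gI G J v)) ≤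
        ∑ J ∈ ind G K, ∑ u ∈ J, ∑ v ∈ X G J,
          S G (nI G (insert v (J.erase u))) (nI G (insert v (J.erase u))) := by
      refine Finset.sum_le_sum fun J hJ => ?_
      have h := locsum G (J := J)
      rw [(mem_ind.1 hJ).2] at h
      exact h
    exact this.trans (le_of_eq hsw)
  have h2 : ∀ J ∈ ind G K, (2 * ((K : ℤ) - 1) * (∑ v ∈ X G J, S G (nI G J) (gI G J v))
      - 2 * (X G J).card * S G (nI G J) (nI G J)) ≤
      ∑ v ∈ X G J, (((K : ℤ) - 2) * S G (nI G J) (nI G J)
        + 2 * ((K : ℤ) - 1) * S G (nI G J) (gI G J v)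
        + (K : ℤ) * S G (gI G J v) (gI G J v)) -
      ∑ _u ∈ J, ∑ _v ∈ X G J, S G (nI G J) (nI G J) := by
    intro J hJ
    have hC : 0 ≤ ∑ v ∈ X G J, S G (gI G J v) (gI G J v) :=
      Finset.sum_nonneg fun v _ => S_nonneg G _ _ (gI_nonneg G J v) (gI_nonneg G J v)
    have hC2 : 0 ≤ (K : ℤ) * ∑ v ∈ X G J, S G (gI G J v) (gI G J v) :=
      mul_nonneg (by positivity) hC
    simp only [Finset.sum_add_distrib, ← Finset.mul_sum, Finset.sum_const, nsmul_eq_mul]
    rw [(mem_ind.1 hJ).2]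
    nlinarith
  refine (Finset.sum_le_sum h2).trans ?_
  rw [Finset.sum_sub_distrib]
  linarith

lemma dX_nonneg (J : Finset V) (z : V) : 0 ≤ dX G J z :=
  Finset.sum_nonneg fun w _ => mul_nonneg (a_nonneg G z w) (xI_nonneg G J w)

lemma xI_le_one (J : Finset V) (v : V) : xI G J v ≤ 1 := by
  rcases xI_cases G J v with h | h <;> rw [h] <;> norm_num

lemma dX_le (d : ℤ) (hd : ∀ v, ∑ w, a G v w = d) (J : Finset V) (z : V) : dX G J z ≤ d := by
  rw [← hd z]
  refine Finset.sum_le_sum fun w _ => ?_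
  have := mul_le_mul_of_nonneg_left (xI_le_one G J w) (a_nonneg G z w)
  linarith

/-- The quantity `A`. -/
lemma A_eq (d : ℤ) (hd : ∀ v, ∑ w, a G v w = d) {J : Finset V} (hJ : Indep G J) :
    ∑ v ∈ X G J, S G (nI G J) (gI G J v) = ∑ z, xI G J z * (dX G J z * (d - dX G J z)) := by
  have hA1 : ∑ v ∈ X G J, S G (nI G J) (gI G J v) =
      ∑ y, ∑ z, a G y z * xI G J y * xI G J z * (d - dX G J z) := by
    rw [sumX]
    refine Finset.sum_congr rfl fun v _ => ?_
    unfold S gI
    rw [Finset.sum_comm, Finset.mul_sum]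
    refine Finset.sum_congr rfl fun z _ => ?_
    rcases xI_cases G J z with hz | hz
    · rw [hz]; simp
    · rw [← deg_split G d hd hJ z hz, Finset.mul_sum, Finset.mul_sum]
      refine Finset.sum_congr rfl fun w _ => ?_
      rw [a_comm G w z]; ring
  rw [hA1, Finset.sum_comm]
  refine Finset.sum_congr rfl fun z _ => ?_
  have : xI G J z * (dX G J z * (d - dX G J z)) =
      ∑ y, a G y z * xI G J y * (xI G J z * (d - dX G J z)) := by
    rw [← Finset.sum_mul]
    have e : ∑ y, a G y z * xI G J y = dX G J z := by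
      unfold dX
      refine Finset.sum_congr rfl fun y _ => ?_
      rw [a_comm G y z]
    rw [e]; ring
  rw [this]
  refine Finset.sum_congr rfl fun y _ => ?_
  ring

lemma EX_eq (J : Finset V) : S G (xI G J) (xI G J) = ∑ z, xI G J z * dX G J z := by
  unfold S dX
  refine Finset.sum_congr rfl fun z _ => ?_
  rw [Finset.mul_sum]
  refine Finset.sum_congr rfl fun w _ => ?_
  ring

/-- Common end of the two arguments. -/
lemma finish (d : ℕ) (hd : ∀ v, ∑ w, a G v w = (d : ℤ)) (hd1 : 1 ≤ d) (M K j : ℕ) (c : ℤ)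
    (hc : 0 < c) (hV : Fintype.card V = 2 * M) (hK : K + j = M)
    (H : ∀ J ∈ ind G K, ∀ EX EN A x : ℤ, EX = S G (xI G J) (xI G J) → EN = S G (nI G J) (nI G J) →
      A = ∑ z, xI G J z * (dX G J z * ((d : ℤ) - dX G J z)) → x = (X G J).card →
      EX - EN = 2 * d * (x - j) → EN ≤ d * (2 * j - x) → 0 ≤ EN → 0 ≤ EX → 0 ≤ x → x ≤ 2 * j →
      0 ≤ A → c * (x - j) ≤ 2 * ((K : ℤ) - 1) * A - 2 * x * EN) :
    (K + 1) * (ind G (K + 1)).card ≤ j * (ind G K).card := by
  classical
  rw [← sum_card_X]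
  have hs := star2 G K
  have hT : ∀ J ∈ ind G K, c * ((X G J).card - j) ≤
      (2 * ((K : ℤ) - 1) * (∑ v ∈ X G J, S G (nI G J) (gI G J v))
      - 2 * (X G J).card * S G (nI G J) (nI G J)) := by
    intro J hJ
    have hJ' := mem_ind.1 hJ
    have h3 := card_part G hJ'.1
    obtain ⟨e1, e2⟩ := edges G (d : ℤ) hd hJ'.1
    rw [hV, hJ'.2] at h3
    rw [hJ'.2] at e1 e2
    push_cast at h3
    have hKM : (K : ℤ) + j = M := by exact_mod_cast hK
    have hN : ∑ w, nI G J w = (K : ℤ) + 2 * j - (X G J).card := by linarith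
    rw [hN] at e1 e2
    have hEN := S_nonneg G _ _ (nI_nonneg G J) (nI_nonneg G J)
    have e2' : S G (nI G J) (nI G J) ≤ d * (2 * j - (X G J).card) := by
      refine e2.trans (le_of_eq ?_); ring
    have hx2 : ((X G J).card : ℤ) ≤ 2 * j := by
      by_contra hcon
      push Not at hcon
      have : (1 : ℤ) ≤ d := by exact_mod_cast hd1
      nlinarith
    have hA0 : (0 : ℤ) ≤ ∑ z, xI G J z * (dX G J z * ((d : ℤ) - dX G J z)) :=
      Finset.sum_nonneg fun z _ => mul_nonneg (xI_nonneg G J z)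
        (mul_nonneg (dX_nonneg G J z) (by have := dX_le G (d : ℤ) hd J z; linarith))
    rw [A_eq G (d : ℤ) hd hJ'.1]
    refine H J hJ _ _ _ _ rfl rfl rfl rfl ?_ e2' hEN
      (S_nonneg G _ _ (xI_nonneg G J) (xI_nonneg G J)) (by positivity) hx2 hA0
    rw [e1]; ring
  have h1 := (Finset.sum_le_sum hT).trans hs
  rw [← Finset.mul_sum, Finset.sum_sub_distrib, Finset.sum_const, nsmul_eq_mul] at h1
  have h2 : (∑ J ∈ ind G K, ((X G J).card : ℤ)) - (ind G K).card * j ≤ 0 := by
    by_contra hcon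
    push Not at hcon
    have := mul_pos hc hcon
    linarith
  have h3 : (∑ J ∈ ind G K, ((X G J).card : ℤ)) ≤ j * (ind G K).card := by linarith
  exact_mod_cast h3

lemma xI_one {J : Finset V} {z : V} (hz : xI G J z = 1) : z ∉ J ∧ ∀ t ∈ J, ¬ G.Adj t z := by
  by_contra hcon
  unfold xI at hz
  rw [if_neg hcon] at hz
  norm_num at hz

open Classical in
/-- If all neighbours of `z` lie in `X G J` then each of them does. -/
lemma nbr_of_full (d : ℤ) (hd : ∀ v, ∑ w, a G v w = d) {J : Finset V} {z w : V}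
    (hz : dX G J z = d) (hw : G.Adj z w) : xI G J w = 1 := by
  by_contra hcon
  have h0 : xI G J w = 0 := by
    rcases xI_cases G J w with h | h
    · exact h
    · exact absurd h hcon
  have h1 : dX G J z + 1 ≤ d := by
    rw [← hd z]
    unfold dX
    have e1 : ∑ t, a G z t * xI G J t + ∑ t, (if t = w then (1 : ℤ) else 0) ≤ ∑ t, a G z t := by
      rw [← Finset.sum_add_distrib]
      refine Finset.sum_le_sum fun t _ => ?_
      by_cases ht : t = w
      · subst ht
        rw [h0, if_pos rfl]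
        unfold a
        rw [if_pos hw]; norm_num
      · rw [if_neg ht]
        have := mul_le_mul_of_nonneg_left (xI_le_one G J t) (a_nonneg G z t)
        linarith
    have e2 : ∑ t : V, (if t = w then (1 : ℤ) else 0) = 1 := by
      rw [Finset.sum_ite_eq' Finset.univ w]; simp
    linarith
  linarith

lemma one_le_dX {J : Finset V} {z w : V} (hz : xI G J z = 1) (hw : G.Adj z w) :
    1 ≤ dX G J w := by
  have h1 : a G w z * xI G J z ≤ dX G J w := by
    unfold dX
    exact Finset.single_le_sum (f := fun t => a G w t * xI G J t)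
      (fun t _ => mul_nonneg (a_nonneg G w t) (xI_nonneg G J t)) (Finset.mem_univ z)
  have h2 : a G w z = 1 := by unfold a; rw [if_pos hw.symm]
  rw [h2, hz] at h1
  linarith

/-- Connected graphs: `A` is at least `d - 1` as soon as there is an edge inside `X G J`. -/
lemma A_conn (d : ℤ) (hd : ∀ v, ∑ w, a G v w = d) (hconn : G.Connected)
    {J : Finset V} (hne : J.Nonempty) (hE : 0 < S G (xI G J) (xI G J)) :
    d - 1 ≤ ∑ z, xI G J z * (dX G J z * (d - dX G J z)) := by
  have hterm : ∀ z, 0 ≤ xI G J z * (dX G J z * (d - dX G J z)) := fun z =>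
    mul_nonneg (xI_nonneg G J z) (mul_nonneg (dX_nonneg G J z)
      (by have := dX_le G d hd J z; linarith))
  by_cases hex : ∃ z, xI G J z = 1 ∧ 1 ≤ dX G J z ∧ dX G J z ≤ d - 1
  · obtain ⟨z, h1, h2, h3⟩ := hex
    have h4 := Finset.single_le_sum (f := fun z => xI G J z * (dX G J z * (d - dX G J z)))
      (fun t _ => hterm t) (Finset.mem_univ z)
    refine le_trans ?_ h4
    rw [h1, one_mul]
    nlinarith
  · exfalso
    have hfull : ∀ z, xI G J z = 1 → 1 ≤ dX G J z → dX G J z = d := by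
      intro z h1 h2
      by_contra h3
      refine hex ⟨z, h1, h2, ?_⟩
      have := dX_le G d hd J z
      omega
    obtain ⟨z0, hz0, hz1⟩ : ∃ z, xI G J z = 1 ∧ 1 ≤ dX G J z := by
      by_contra hcon
      push Not at hcon
      rw [EX_eq] at hE
      have : ∑ z, xI G J z * dX G J z ≤ 0 := by
        refine Finset.sum_nonpos fun z _ => ?_
        rcases xI_cases G J z with h | h
        · rw [h]; simp
        · have := hcon z h
          rw [h]; linarith
      linarith
    have hclosed : ∀ w, xI G J w = 1 ∧ dX G J w = d := by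
      intro w
      have hr := hconn.preconnected z0 w
      rw [SimpleGraph.reachable_iff_reflTransGen] at hr
      induction hr with
      | refl => exact ⟨hz0, hfull z0 hz0 hz1⟩
      | tail _ hadj ih =>
        have h1 := nbr_of_full G d hd ih.2 hadj
        exact ⟨h1, hfull _ h1 (one_le_dX G ih.1 hadj)⟩
    obtain ⟨u, hu⟩ := hne
    exact (xI_one G (hclosed u).1).1 hu

/-- The connected case. -/
lemma main_conn (d : ℕ) (hd : ∀ v, ∑ w, a G v w = (d : ℤ)) (hd2 : 2 ≤ d) (hconn : G.Connected)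
    (M K j : ℕ) (hV : Fintype.card V = 2 * M) (hj : 1 ≤ j) (hK : K + j = M)
    (hq : 4 * j ^ 2 + j + 1 ≤ M) :
    (K + 1) * (ind G (K + 1)).card ≤ j * (ind G K).card := by
  have hd2' : (2 : ℤ) ≤ d := by exact_mod_cast hd2
  have hj' : (1 : ℤ) ≤ j := by exact_mod_cast hj
  have hK4 : 4 * (j : ℤ) ^ 2 + 1 ≤ K := by
    have : 4 * j ^ 2 + 1 ≤ K := by omega
    exact_mod_cast this
  refine finish G d hd (by omega) M K j (4 * d * j) (by positivity) hV hK ?_
  intro J hJ EX EN A x hEX hEN hA hx h1 h2 h3 h4 h5 h6 h7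
  rcases h4.eq_or_lt with h0 | hpos
  · -- no edge inside
    have e1 : EN = 2 * d * (j - x) := by linarith
    have hxj : 0 ≤ (j : ℤ) - x := by
      by_contra hcon
      push Not at hcon
      nlinarith
    have e2 : 0 ≤ 2 * ((K : ℤ) - 1) * A := mul_nonneg (by nlinarith) h7
    have e3 : 0 ≤ (d : ℤ) * ((j - x) * (j - x)) := mul_nonneg (by linarith) (mul_self_nonneg _)
    rw [e1]
    nlinarith
  · have hne : J.Nonempty := by
      rw [← Finset.card_pos, (mem_ind.1 hJ).2]
      have : (0 : ℤ) < K := by nlinarith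
      exact_mod_cast this
    have hAc := A_conn G (d : ℤ) hd hconn hne (by rw [← hEX]; exact hpos)
    rw [← hA] at hAc
    have e1 : x * EN ≤ x * (d * (2 * j - x)) := mul_le_mul_of_nonneg_left h2 h5
    have e2 : 2 * ((d : ℤ) * (2 * (j : ℤ) ^ 2)) ≤ 2 * (((K : ℤ) - 1) * A) := by
      have e3 : (d : ℤ) ≤ 2 * (d - 1) := by linarith
      have e4 : (4 * (j : ℤ) ^ 2) * (d - 1) ≤ ((K : ℤ) - 1) * A :=
        mul_le_mul (by linarith) hAc (by linarith) (by nlinarith)
      nlinarith
    have e5 : 0 ≤ (d : ℤ) * ((2 * j - x) * (2 * j - x)) :=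
      mul_nonneg (by linarith) (mul_self_nonneg _)
    nlinarith

end

end Pool.Agent.Helper920.Ratio
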