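import Pool.Agent.Helper920_Ratio.Main2

set_option autoImplicit false
set_option linter.unusedSectionVars false
set_option linter.unnecessarySeqFocus false
set_option linter.unusedSimpArgs false

namespace Pool.Agent.Helper920.Ratio

open Finset

noncomputable section

section G

variable {V : Type*} [Fintype V] (G : SimpleGraph V)

open Classical in
/-- The non-isolated vertices of the graph induced on `X G J`. -/
def Yset (J : Finset V) : Finset V := univ.filter (fun z => xI G J z = 1 ∧ 1 ≤ dX G J z)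

open Classical in
/-- The number of edges between `Y` and its complement. -/
def cut (Y : Finset V) : ℕ :=
  (univ.filter (fun p : V × V => p.1 ∈ Y ∧ p.2 ∉ Y ∧ G.Adj p.1 p.2)).card

lemma mem_Y {J : Finset V} {z : V} : z ∈ Yset G J ↔ xI G J z = 1 ∧ 1 ≤ dX G J z := by
  simp [Yset]

lemma cut_eq (Y : Finset V) :
    ((cut G Y : ℕ) : ℤ) = ∑ z, ∑ w, a G z w * jI Y z * (1 - jI Y w) := by
  classical
  unfold cut
  rw [Finset.card_filter]
  push_cast
  rw [← Finset.univ_product_univ, Finset.sum_product]
  refine Finset.sum_congr rfl fun z _ => Finset.sum_congr rfl fun w _ => ?_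
  unfold a jI
  by_cases h1 : z ∈ Y <;> by_cases h2 : w ∈ Y <;> by_cases h3 : G.Adj z w <;> simp [h1, h2, h3]

lemma EX_Y (d : ℤ) (hd : ∀ v, ∑ w, a G v w = d) (J : Finset V) :
    S G (xI G J) (xI G J) = d * (Yset G J).card - cut G (Yset G J) := by
  have e1 : d * ((Yset G J).card : ℤ) = ∑ z, ∑ w, a G z w * jI (Yset G J) z := by
    rw [← sum_jI, Finset.mul_sum]
    refine Finset.sum_congr rfl fun z _ => ?_
    rw [← hd z, Finset.sum_mul]
  rw [e1, cut_eq, ← Finset.sum_sub_distrib]
  unfold S
  refine Finset.sum_congr rfl fun z _ => ?_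
  rw [← Finset.sum_sub_distrib]
  refine Finset.sum_congr rfl fun w _ => ?_
  have key : a G z w * xI G J z * xI G J w = a G z w * jI (Yset G J) z * jI (Yset G J) w := by
    by_cases hzw : G.Adj z w
    · by_cases hz : xI G J z = 1
      · by_cases hw : xI G J w = 1
        · have h1 : z ∈ Yset G J := (mem_Y G).2 ⟨hz, one_le_dX G hw hzw.symm⟩
          have h2 : w ∈ Yset G J := (mem_Y G).2 ⟨hw, one_le_dX G hz hzw⟩
          unfold jI
          rw [hz, hw, if_pos h1, if_pos h2]
        · have h2 : w ∉ Yset G J := fun h => hw ((mem_Y G).1 h).1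
          have h0 : xI G J w = 0 := by
            rcases xI_cases G J w with h | h
            · exact h
            · exact absurd h hw
          unfold jI
          rw [h0, if_neg h2]; ring
      · have h2 : z ∉ Yset G J := fun h => hz ((mem_Y G).1 h).1
        have h0 : xI G J z = 0 := by
          rcases xI_cases G J z with h | h
          · exact h
          · exact absurd h hz
        unfold jI
        rw [h0, if_neg h2]; ring
    · unfold a
      rw [if_neg hzw]; ring
  rw [key]; ring

lemma cut_le (d : ℤ) (hd : ∀ v, ∑ w, a G v w = d) (J : Finset V) :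
    ((cut G (Yset G J) : ℕ) : ℤ) ≤ ∑ z, xI G J z * (dX G J z * (d - dX G J z)) := by
  have e1 := EX_Y G d hd J
  have e2 : d * ((Yset G J).card : ℤ) - S G (xI G J) (xI G J) =
      ∑ z, (d * jI (Yset G J) z - xI G J z * dX G J z) := by
    rw [EX_eq, Finset.sum_sub_distrib, ← Finset.mul_sum, sum_jI]
  have e3 : ((cut G (Yset G J) : ℕ) : ℤ) = ∑ z, (d * jI (Yset G J) z - xI G J z * dX G J z) := by
    rw [← e2]; linarith
  rw [e3]
  refine Finset.sum_le_sum fun z _ => ?_
  have h0 := dX_nonneg G J z
  have h1 := dX_le G d hd J z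
  rcases xI_cases G J z with hx | hx
  · have h2 : z ∉ Yset G J := fun h => by
      have := ((mem_Y G).1 h).1
      rw [hx] at this; norm_num at this
    unfold jI
    rw [hx, if_neg h2]; simp
  · rcases h0.eq_or_lt with h3 | h3
    · have h2 : z ∉ Yset G J := fun h => by
        have := ((mem_Y G).1 h).2
        rw [← h3] at this; norm_num at this
      unfold jI
      rw [hx, if_neg h2, ← h3]; simp
    · have h2 : z ∈ Yset G J := (mem_Y G).2 ⟨hx, h3⟩
      unfold jI
      rw [hx, if_pos h2]
      nlinarith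

/-- The expanding case. -/
lemma main_exp (d : ℕ) (hd : ∀ v, ∑ w, a G v w = (d : ℤ)) (hd1 : 1 ≤ d)
    (M K j : ℕ) (hV : Fintype.card V = 2 * M) (hj : 1 ≤ j) (hK1 : 1 ≤ K) (hK : K + j = M)
    (hexp : ∀ Y : Finset V, Y.Nonempty → Y.card ≤ 2 * j →
      6 * d * j * Y.card + 5 * cut G Y ≤ (5 * M + j) * cut G Y) :
    (K + 1) * (ind G (K + 1)).card ≤ j * (ind G K).card := by
  have hd1' : (1 : ℤ) ≤ d := by exact_mod_cast hd1
  have hj' : (1 : ℤ) ≤ j := by exact_mod_cast hj
  have hK1' : (1 : ℤ) ≤ K := by exact_mod_cast hK1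
  have hKM : (K : ℤ) + j = M := by exact_mod_cast hK
  refine finish G d hd hd1 M K j (4 * d * j) (by positivity) hV hK ?_
  intro J hJ EX EN A x hEX hEN hA hx h1 h2 h3 h4 h5 h6 h7
  have hmain : 6 * j * EX ≤ 5 * (((K : ℤ) - 1) * A) := by
    have hq : (0 : ℤ) ≤ (K : ℤ) - 1 := by linarith
    rcases (Yset G J).eq_empty_or_nonempty with hY | hY
    · have e1 := EX_Y G (d : ℤ) hd J
      rw [hY, Finset.card_empty] at e1
      have e2 : 0 ≤ ((cut G (∅ : Finset V) : ℕ) : ℤ) := by positivity
      have e3 : EX ≤ 0 := by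
        rw [hEX, e1]; push_cast; linarith
      have e4 : 0 ≤ ((K : ℤ) - 1) * A := mul_nonneg hq h7
      nlinarith
    · have hcard : (Yset G J).card ≤ 2 * j := by
        have e1 : (Yset G J).card ≤ (X G J).card := by
          refine Finset.card_le_card fun z hz => ?_
          exact mem_X.2 (xI_one G ((mem_Y G).1 hz).1)
        have e2 : ((X G J).card : ℤ) ≤ 2 * j := by rw [← hx]; exact h6
        have e3 : (X G J).card ≤ 2 * j := by exact_mod_cast e2
        exact e1.trans e3
      have e1 := hexp (Yset G J) hY hcard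
      have e2 : 6 * (d : ℤ) * j * (Yset G J).card + 5 * cut G (Yset G J) ≤
          (5 * M + j) * cut G (Yset G J) := by exact_mod_cast e1
      have e3 := EX_Y G (d : ℤ) hd J
      have e4 := cut_le G (d : ℤ) hd J
      rw [← hA] at e4
      rw [← hEX] at e3
      have e5 : ((K : ℤ) - 1) * cut G (Yset G J) ≤ ((K : ℤ) - 1) * A :=
        mul_le_mul_of_nonneg_left e4 hq
      rw [e3]
      have hM' : (M : ℤ) = K + j := hKM.symm
      rw [hM'] at e2
      nlinarith
  obtain ⟨D, hD⟩ : ∃ D, x = j + D := ⟨x - j, by ring⟩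
  have hEXe : EX = EN + 2 * d * D := by rw [hD] at h1; linarith
  have key : 0 ≤ EN * (2 * j - 10 * D) + 4 * d * j * D := by
    rcases le_or_gt D 0 with hD0 | hD0
    · have e1 : -(2 * (d : ℤ) * D) ≤ EN := by linarith
      have e2 : -(2 * (d : ℤ) * D) * (2 * j - 10 * D) ≤ EN * (2 * j - 10 * D) :=
        mul_le_mul_of_nonneg_right e1 (by linarith)
      have e3 : 0 ≤ (d : ℤ) * (D * D) := mul_nonneg (by linarith) (mul_self_nonneg _)
      nlinarith
    · rcases le_or_gt (10 * D) (2 * j) with hc | hc
      · have e1 : 0 ≤ EN * (2 * j - 10 * D) := mul_nonneg h3 (by linarith)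
        have e2 : 0 ≤ 4 * (d : ℤ) * j * D := by positivity
        linarith
      · have e1 : (d * (2 * j - x)) * (2 * (j : ℤ) - 10 * D) ≤ EN * (2 * j - 10 * D) :=
          mul_le_mul_of_nonpos_right h2 (by linarith)
        rw [hD] at e1
        have e3 : 0 ≤ (d : ℤ) * ((j - 2 * D) * (j - 2 * D) + D * D) :=
          mul_nonneg (by linarith) (add_nonneg (mul_self_nonneg _) (mul_self_nonneg _))
        nlinarith
  rw [hEXe] at hmain
  rw [hD]
  nlinarith

end G

/-- For `H`, every independent set of size `dm - j` can be extended in at least `j` ways. -/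
lemma H_X_ge {d m K j : ℕ} (hK : K + j = d * m)
    {J : Finset (Fin m × Bool × Fin d)} (hJ : Indep (Hg d m) J) (hc : J.card = K) :
    j ≤ (X (Hg d m) J).card := by
  classical
  have hdisj : Disjoint J (X (Hg d m) J) := by
    rw [Finset.disjoint_left]
    intro x hx hx2
    exact (mem_X.1 hx2).1 hx
  have himg : (J ∪ X (Hg d m) J).image (fun x => (x.1, x.2.2)) =
      (Finset.univ : Finset (Fin m × Fin d)) := by
    rw [Finset.eq_univ_iff_forall]
    rintro ⟨c, i⟩
    rw [Finset.mem_image]
    by_cases hcop : ∃ u ∈ J, u.1 = c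
    · obtain ⟨u, hu, huc⟩ := hcop
      refine ⟨(c, u.2.1, i), ?_, rfl⟩
      rw [Finset.mem_union]
      by_cases h : (c, u.2.1, i) ∈ J
      · exact Or.inl h
      · refine Or.inr ?_
        rw [mem_X]
        refine ⟨h, fun t ht hadj => ?_⟩
        rw [Hg_adj] at hadj
        simp only at hadj
        exact hJ t ht u hu ((Hg_adj _ _).2 ⟨hadj.1.trans huc.symm, hadj.2⟩)
    · refine ⟨(c, true, i), ?_, rfl⟩
      rw [Finset.mem_union]
      refine Or.inr ?_
      rw [mem_X]
      refine ⟨fun h => hcop ⟨_, h, rfl⟩, fun t ht hadj => ?_⟩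
      rw [Hg_adj] at hadj
      exact hcop ⟨t, ht, hadj.1⟩
  have hcard : m * d ≤ (J ∪ X (Hg d m) J).card := by
    have h1 : (Finset.univ : Finset (Fin m × Fin d)).card ≤ (J ∪ X (Hg d m) J).card := by
      rw [← himg]
      exact Finset.card_image_le
    rwa [Finset.card_univ, Fintype.card_prod, Fintype.card_fin, Fintype.card_fin] at h1
  rw [Finset.card_union_of_disjoint hdisj, hc] at hcard
  have e : m * d = d * m := mul_comm _ _
  omega

lemma main_H_ge {d m K j : ℕ} (hK : K + j = d * m) :
    j * (ind (Hg d m) K).card ≤ (K + 1) * (ind (Hg d m) (K + 1)).card := by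
  rw [← sum_card_X, mul_comm, ← smul_eq_mul, ← Finset.sum_const]
  exact Finset.sum_le_sum fun J hJ => H_X_ge hK (mem_ind.1 hJ).1 (mem_ind.1 hJ).2

/-- Regularity in the form used above. -/
lemma deg_sum {V : Type*} [Fintype V] (G : SimpleGraph V) [G.LocallyFinite] (d : ℕ)
    (hG : G.IsRegularOfDegree d) : ∀ v, ∑ w, a G v w = (d : ℤ) := by
  classical
  intro v
  have h := hG v
  unfold a
  rw [Finset.sum_ite, Finset.sum_const_zero, add_zero, Finset.sum_const, nsmul_eq_mul, mul_one]
  have h2 : (Finset.univ.filter (fun w => G.Adj v w)).card = G.degree v := by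
    rw [← SimpleGraph.card_neighborFinset_eq_degree]
    congr 1
    ext w
    simp
  rw [h2]
  exact_mod_cast h

end

end Pool.Agent.Helper920.Ratio
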