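import Pool.Agent.Helper920_Ratio.Main3

set_option autoImplicit false
set_option linter.unusedSectionVars false
set_option linter.unnecessarySeqFocus false
set_option linter.unusedSimpArgs false

namespace Pool.Agent.Helper920.Ratio

open Finset

noncomputable section

variable {V : Type*} [Fintype V] (G : SimpleGraph V)

open Classical in
/-- Large components: `A` is at least `d - 1` as soon as there is an edge inside `X G J`. -/
lemma A_comp (d : ℤ) (hd : ∀ v, ∑ w, a G v w = d)
    {J : Finset V} (hcomp : ∀ v, (X G J).card < (univ.filter (fun w => G.Reachable v w)).card)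
    (hE : 0 < S G (xI G J) (xI G J)) :
    d - 1 ≤ ∑ z, xI G J z * (dX G J z * (d - dX G J z)) := by
  have hterm : ∀ z, 0 ≤ xI G J z * (dX G J z * (d - dX G J z)) := fun z =>
    mul_nonneg (xI_nonneg G J z) (mul_nonneg (dX_nonneg G J z)
      (by have := dX_le G d hd J z; linarith))
  by_cases hex : ∃ z, xI G J z = 1 ∧ 1 ≤ dX G J z ∧ dX G J z ≤ d - 1
  · obtain ⟨z, h1, h2, h3⟩ := hex
    have h4 := Finset.single_le_sum (f := fun z => xI G J z * (dX G J z * (d - dX G J z)))
      (fun t _ => hterm t) (Finset.mem_univ z)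
    refine le_trans ?_ h4
    rw [h1, one_mul]
    nlinarith
  · exfalso
    have hfull : ∀ z, xI G J z = 1 → 1 ≤ dX G J z → dX G J z = d := by
      intro z h1 h2
      by_contra h3
      refine hex ⟨z, h1, h2, ?_⟩
      have := dX_le G d hd J z
      omega
    obtain ⟨z0, hz0, hz1⟩ : ∃ z, xI G J z = 1 ∧ 1 ≤ dX G J z := by
      by_contra hcon
      push Not at hcon
      rw [EX_eq] at hE
      have : ∑ z, xI G J z * dX G J z ≤ 0 := by
        refine Finset.sum_nonpos fun z _ => ?_
        rcases xI_cases G J z with h | h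
        · rw [h]; simp
        · have := hcon z h
          rw [h]; linarith
      linarith
    have hclosed : ∀ w, G.Reachable z0 w → xI G J w = 1 ∧ dX G J w = d := by
      intro w hr
      rw [SimpleGraph.reachable_iff_reflTransGen] at hr
      induction hr with
      | refl => exact ⟨hz0, hfull z0 hz0 hz1⟩
      | tail _ hadj ih =>
        have h1 := nbr_of_full G d hd ih.2 hadj
        exact ⟨h1, hfull _ h1 (one_le_dX G ih.1 hadj)⟩
    have hsub : (univ.filter (fun w => G.Reachable z0 w)) ⊆ X G J := by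
      intro w hw
      rw [Finset.mem_filter] at hw
      exact mem_X.2 (xI_one G (hclosed w hw.2).1)
    have h1 := Finset.card_le_card hsub
    have h2 := hcomp z0
    omega

open Classical in
/-- The case of large components. -/
lemma main_comp (d : ℕ) (hd : ∀ v, ∑ w, a G v w = (d : ℤ)) (hd2 : 2 ≤ d)
    (M K j : ℕ) (hV : Fintype.card V = 2 * M) (hj : 1 ≤ j) (hK : K + j = M)
    (hq : 4 * j ^ 2 + j + 1 ≤ M)
    (hcomp : ∀ v, 2 * j < (univ.filter (fun w => G.Reachable v w)).card) :
    (K + 1) * (ind G (K + 1)).card ≤ j * (ind G K).card := by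
  have hd2' : (2 : ℤ) ≤ d := by exact_mod_cast hd2
  have hj' : (1 : ℤ) ≤ j := by exact_mod_cast hj
  have hK4 : 4 * (j : ℤ) ^ 2 + 1 ≤ K := by
    have : 4 * j ^ 2 + 1 ≤ K := by omega
    exact_mod_cast this
  refine finish G d hd (by omega) M K j (4 * d * j) (by positivity) hV hK ?_
  intro J hJ EX EN A x hEX hEN hA hx h1 h2 h3 h4 h5 h6 h7
  rcases h4.eq_or_lt with h0 | hpos
  · -- no edge inside
    have e1 : EN = 2 * d * (j - x) := by linarith
    have hxj : 0 ≤ (j : ℤ) - x := by
      by_contra hcon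
      push Not at hcon
      nlinarith
    have e2 : 0 ≤ 2 * ((K : ℤ) - 1) * A := mul_nonneg (by nlinarith) h7
    have e3 : 0 ≤ (d : ℤ) * ((j - x) * (j - x)) := mul_nonneg (by linarith) (mul_self_nonneg _)
    rw [e1]
    nlinarith
  · have hx2 : (X G J).card ≤ 2 * j := by
      have : ((X G J).card : ℤ) ≤ 2 * j := by rw [← hx]; exact h6
      exact_mod_cast this
    have hAc := A_comp G (d : ℤ) hd (J := J) (fun v => lt_of_le_of_lt hx2 (hcomp v))
      (by rw [← hEX]; exact hpos)
    rw [← hA] at hAc
    have e1 : x * EN ≤ x * (d * (2 * j - x)) := mul_le_mul_of_nonneg_left h2 h5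
    have e2 : 2 * ((d : ℤ) * (2 * (j : ℤ) ^ 2)) ≤ 2 * (((K : ℤ) - 1) * A) := by
      have e3 : (d : ℤ) ≤ 2 * (d - 1) := by linarith
      have e4 : (4 * (j : ℤ) ^ 2) * (d - 1) ≤ ((K : ℤ) - 1) * A :=
        mul_le_mul (by linarith) hAc (by linarith) (by nlinarith)
      nlinarith
    have e5 : 0 ≤ (d : ℤ) * ((2 * j - x) * (2 * j - x)) :=
      mul_nonneg (by linarith) (mul_self_nonneg _)
    nlinarith

end

end Pool.Agent.Helper920.Ratio
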