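import Pool.Agent.Helper920_Ratio.Tail

set_option autoImplicit false
set_option linter.unusedSectionVars false
set_option linter.unnecessarySeqFocus false
set_option linter.unusedSimpArgs false

namespace Pool.Agent.Helper920.Ratio

open Finset

noncomputable section

variable {V : Type*} [Fintype V] (G : SimpleGraph V)

open Classical in
/-- Weighted extension counting. -/
lemma ext_sum (K : ℕ) (f : Finset V → ℤ) :
    ∑ J ∈ ind G K, ∑ v ∈ X G J, f (insert v J) = ∑ J ∈ ind G (K + 1), ∑ _v ∈ J, f J := by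
  rw [← Finset.sum_sigma (s := ind G K) (t := fun J => X G J)
      (f := fun p : (_ : Finset V) × V => f (insert p.2 p.1)),
    ← Finset.sum_sigma (s := ind G (K + 1)) (t := fun J => J)
      (f := fun p : (_ : Finset V) × V => f p.1)]
  refine Finset.sum_nbij' (fun p => (⟨insert p.2 p.1, p.2⟩ : (_ : Finset V) × V))
    (fun p => (⟨p.1.erase p.2, p.2⟩ : (_ : Finset V) × V)) ?_ ?_ ?_ ?_ ?_
  · rintro ⟨J, v⟩ h
    rw [Finset.mem_sigma] at h
    obtain ⟨hJ, hv⟩ := h
    simp only at hJ hv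
    rw [mem_ind] at hJ
    rw [mem_X] at hv
    rw [Finset.mem_sigma]
    refine ⟨?_, Finset.mem_insert_self _ _⟩
    rw [mem_ind]
    refine ⟨?_, by rw [Finset.card_insert_of_notMem hv.1, hJ.2]⟩
    intro x hx y hy hxy
    rw [Finset.mem_insert] at hx hy
    rcases hx with rfl | hx
    · rcases hy with rfl | hy
      · exact G.loopless.irrefl _ hxy
      · exact hv.2 y hy hxy.symm
    · rcases hy with rfl | hy
      · exact hv.2 x hx hxy
      · exact hJ.1 x hx y hy hxy
  · rintro ⟨J, v⟩ h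
    rw [Finset.mem_sigma] at h
    obtain ⟨hJ, hv⟩ := h
    simp only at hJ hv
    rw [mem_ind] at hJ
    rw [Finset.mem_sigma]
    refine ⟨?_, ?_⟩
    · rw [mem_ind]
      refine ⟨fun x hx y hy => hJ.1 x (Finset.mem_of_mem_erase hx) y (Finset.mem_of_mem_erase hy),
        ?_⟩
      simp only
      rw [Finset.card_erase_of_mem hv, hJ.2]; rfl
    · rw [mem_X]
      exact ⟨Finset.notMem_erase _ _, fun u hu => hJ.1 u (Finset.mem_of_mem_erase hu) v hv⟩
  · rintro ⟨J, v⟩ h
    rw [Finset.mem_sigma] at h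
    have hv := (mem_X.1 h.2).1
    simp only at hv ⊢
    rw [Finset.erase_insert hv]
  · rintro ⟨J, v⟩ h
    rw [Finset.mem_sigma] at h
    have hv := h.2
    simp only at hv ⊢
    rw [Finset.insert_erase hv]
  · rintro ⟨J, v⟩ h
    rfl

open Classical in
lemma card_X_insert {J : Finset V} {y : V} (hy : y ∈ X G J) :
    ((X G (insert y J)).card : ℤ) = (X G J).card - 1 - dX G J y := by
  have hy' := mem_X.1 hy
  have hpt : ∀ w, xI G (insert y J) w = xI G J w - (if w = y then 1 else 0) - gI G J y w := by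
    intro w
    by_cases hw : w = y
    · subst hw
      have h0 : xI G (insert w J) w = 0 := xI_zero G (fun h => h.1 (Finset.mem_insert_self _ _))
      have h1 : xI G J w = 1 := xI_pos G hy'
      unfold gI
      rw [h0, h1, a_self', if_pos rfl]; ring
    · rw [if_neg hw]
      by_cases hx : w ∉ J ∧ ∀ t ∈ J, ¬ G.Adj t w
      · have h1 : xI G J w = 1 := xI_pos G hx
        unfold gI
        rw [h1]
        by_cases hadj : G.Adj y w
        · have h0 : xI G (insert y J) w = 0 :=
            xI_zero G (fun h => h.2 y (Finset.mem_insert_self _ _) hadj)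
          have h2 : a G y w = 1 := by unfold a; rw [if_pos hadj]
          rw [h0, h2]; ring
        · have h0 : xI G (insert y J) w = 1 := by
            refine xI_pos G ⟨?_, ?_⟩
            · intro h
              rw [Finset.mem_insert] at h
              rcases h with h | h
              · exact hw h
              · exact hx.1 h
            · intro t ht
              rw [Finset.mem_insert] at ht
              rcases ht with rfl | ht
              · exact hadj
              · exact hx.2 t ht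
          have h2 : a G y w = 0 := by unfold a; rw [if_neg hadj]
          rw [h0, h2]; ring
      · have h1 : xI G J w = 0 := xI_zero G hx
        have h0 : xI G (insert y J) w = 0 := by
          refine xI_zero G (fun h => hx ⟨fun hw' => h.1 (Finset.mem_insert_of_mem hw'), fun t ht =>
            h.2 t (Finset.mem_insert_of_mem ht)⟩)
        unfold gI
        rw [h0, h1]; ring
  rw [← sum_xI, ← sum_xI, Finset.sum_congr rfl (fun w _ => hpt w), Finset.sum_sub_distrib,
    Finset.sum_sub_distrib, Finset.sum_ite_eq' Finset.univ y, if_pos (Finset.mem_univ _)]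
  have h2 : ∑ w, gI G J y w = dX G J y := by
    unfold gI dX
    refine Finset.sum_congr rfl fun w _ => ?_
    ring
  rw [h2]
where
  a_self' {v : V} : a G v v = 0 := by
    unfold a; rw [if_neg (G.loopless.irrefl v)]

/-- Second order extension counting. -/
lemma second (K : ℕ) :
    ∑ J ∈ ind G K, (((X G J).card : ℤ) ^ 2 - (X G J).card - S G (xI G J) (xI G J)) =
      (K + 1) * (K + 2) * (ind G (K + 2)).card := by
  classical
  have h1 := ext_sum G K (fun J => ((X G J).card : ℤ))
  have h2 : ∀ J ∈ ind G K, ∑ v ∈ X G J, ((X G (insert v J)).card : ℤ) =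
      ((X G J).card : ℤ) ^ 2 - (X G J).card - S G (xI G J) (xI G J) := by
    intro J hJ
    rw [Finset.sum_congr rfl (fun v hv => card_X_insert G hv), Finset.sum_sub_distrib,
      Finset.sum_const, nsmul_eq_mul]
    have h4 : ∑ v ∈ X G J, dX G J v = S G (xI G J) (xI G J) := by
      rw [sumX, EX_eq]
    rw [h4]; ring
  rw [Finset.sum_congr rfl h2] at h1
  rw [h1]
  have h3 : ∀ J ∈ ind G (K + 1), ∑ _v ∈ J, ((X G J).card : ℤ) = (K + 1) * (X G J).card := by
    intro J hJ
    rw [Finset.sum_const, nsmul_eq_mul, (mem_ind.1 hJ).2]; push_cast; ring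
  rw [Finset.sum_congr rfl h3, ← Finset.mul_sum]
  have h5 : (∑ J ∈ ind G (K + 1), ((X G J).card : ℤ)) = (K + 2) * (ind G (K + 2)).card := by
    have := sum_card_X G (K + 1)
    have h6 : (∑ J ∈ ind G (K + 1), ((X G J).card : ℤ)) = ((K + 1 : ℕ) + 1) *
        (ind G (K + 1 + 1)).card := by exact_mod_cast this
    rw [h6]; push_cast; ring
  rw [h5]; ring

/-- The Moon-Moser inequality. -/
lemma moon_moser (K : ℕ) :
    ((K : ℤ) + 1) ^ 2 * (ind G (K + 1)).card ^ 2 ≤
      (ind G K).card * (Fintype.card V * (ind G (K + 1)).card +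
        (((K : ℤ) + 1) ^ 2 - 1) * (ind G (K + 2)).card) := by
  obtain ⟨s, hs⟩ : ∃ s : ℤ, s = ∑ J ∈ ind G K, ((X G J).card : ℤ) := ⟨_, rfl⟩
  obtain ⟨s2, hs2⟩ : ∃ s2 : ℤ, s2 = ∑ J ∈ ind G K, ((X G J).card : ℤ) ^ 2 := ⟨_, rfl⟩
  obtain ⟨E, hE⟩ : ∃ E : ℤ, E = ∑ J ∈ ind G K, S G (xI G J) (xI G J) := ⟨_, rfl⟩
  have h1 : s = (K + 1) * (ind G (K + 1)).card := by
    rw [hs]
    exact_mod_cast sum_card_X G K
  have h2 := swap_one G K
  rw [← hE] at h2
  have h3 : ∑ J ∈ ind G K, ((X G J).card : ℤ) * (Fintype.card V - K - (X G J).card) =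
      (Fintype.card V - K) * s - s2 := by
    rw [hs, hs2, Finset.mul_sum, ← Finset.sum_sub_distrib]
    refine Finset.sum_congr rfl fun J _ => ?_
    ring
  rw [h3] at h2
  have h5 : s ^ 2 ≤ (ind G K).card * s2 := by
    rw [hs, hs2]
    exact sq_sum_le_card_mul_sum_sq
  have h6 := second G K
  rw [Finset.sum_sub_distrib, Finset.sum_sub_distrib, ← hs, ← hs2, ← hE] at h6
  obtain ⟨A, hA⟩ : ∃ A : ℤ, A = (ind G K).card := ⟨_, rfl⟩
  obtain ⟨B, hB⟩ : ∃ B : ℤ, B = (ind G (K + 1)).card := ⟨_, rfl⟩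
  obtain ⟨C, hC⟩ : ∃ C : ℤ, C = (ind G (K + 2)).card := ⟨_, rfl⟩
  obtain ⟨k, hk⟩ : ∃ k : ℤ, k = K := ⟨_, rfl⟩
  obtain ⟨n, hn⟩ : ∃ n : ℤ, n = Fintype.card V := ⟨_, rfl⟩
  rw [← hA, ← hB, ← hC, ← hk, ← hn]
  rw [← hk, ← hn] at h2
  rw [← hA] at h5
  rw [← hk, ← hB] at h1
  rw [← hk, ← hC] at h6
  have hA0 : 0 ≤ A := by rw [hA]; positivity
  have hk0 : 0 ≤ k := by rw [hk]; positivity
  -- (k+1) s2 ≤ n s + k (k+1) (k+2) C
  have e1 : (k + 1) * s2 ≤ n * s + k * ((k + 1) * (k + 2) * C) := by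
    have e2 : E = s2 - s - (k + 1) * (k + 2) * C := by linarith
    rw [e2] at h2
    nlinarith
  have e2 : (k + 1) * s ^ 2 ≤ A * (n * s + k * ((k + 1) * (k + 2) * C)) := by
    have e3 := mul_le_mul_of_nonneg_left h5 (by linarith : (0 : ℤ) ≤ k + 1)
    have e4 := mul_le_mul_of_nonneg_left e1 hA0
    nlinarith
  rw [h1] at e2
  have e5 : (k + 1) * ((k + 1) ^ 2 * B ^ 2) ≤
      (k + 1) * (A * (n * B + ((k + 1) ^ 2 - 1) * C)) := by
    nlinarith
  exact le_of_mul_le_mul_left e5 (by linarith)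

end

end Pool.Agent.Helper920.Ratio
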