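import Pool.Agent.Helper920_Ratio.Start

set_option autoImplicit false
set_option linter.unusedSectionVars false
set_option linter.unnecessarySeqFocus false
set_option linter.unusedSimpArgs false

namespace Pool.Agent.Helper920.Ratio

open Finset

noncomputable section

variable {V : Type*} [Fintype V] (G : SimpleGraph V)

lemma ind_zero : ind G 0 = {∅} := by
  ext J
  rw [mem_ind, Finset.card_eq_zero, Finset.mem_singleton]
  constructor
  · exact fun h => h.2
  · rintro rfl
    exact ⟨fun x hx => absurd hx (Finset.notMem_empty x), rfl⟩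

lemma X_empty : X G ∅ = Finset.univ := by
  ext v
  simp [mem_X]

lemma xI_empty (v : V) : xI G ∅ v = 1 :=
  xI_pos G ⟨Finset.notMem_empty v, fun t ht => absurd ht (Finset.notMem_empty t)⟩

lemma card_one : ((ind G 1).card : ℤ) = Fintype.card V := by
  have h := sum_card_X G 0
  rw [ind_zero, Finset.sum_singleton, X_empty, Finset.card_univ] at h
  have : (ind G 1).card = Fintype.card V := by
    rw [h]; simp
  exact_mod_cast this

lemma card_two : 2 * ((ind G 2).card : ℤ) =
    (Fintype.card V : ℤ) ^ 2 - Fintype.card V - ∑ v, ∑ w, a G v w := by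
  have h := second G 0
  rw [ind_zero, Finset.sum_singleton, X_empty, Finset.card_univ] at h
  have e : S G (xI G ∅) (xI G ∅) = ∑ v, ∑ w, a G v w := by
    unfold S
    refine Finset.sum_congr rfl fun v _ => Finset.sum_congr rfl fun w _ => ?_
    rw [xI_empty, xI_empty]; ring
  rw [e] at h
  rw [h]
  push_cast
  ring

lemma card_mono_zero (K : ℕ) (h : (ind G K).card = 0) : (ind G (K + 1)).card = 0 := by
  classical
  by_contra hne
  obtain ⟨J, hJ⟩ := Finset.card_pos.1 (Nat.pos_of_ne_zero hne)
  have hJ' := mem_ind.1 hJ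
  obtain ⟨u, hu⟩ : J.Nonempty := by
    rw [← Finset.card_pos, hJ'.2]; omega
  have hmem : J.erase u ∈ ind G K := by
    rw [mem_ind]
    refine ⟨fun x hx y hy => hJ'.1 x (Finset.mem_of_mem_erase hx) y (Finset.mem_of_mem_erase hy),
      ?_⟩
    rw [Finset.card_erase_of_mem hu, hJ'.2]; rfl
  exact absurd h (Finset.card_ne_zero_of_mem hmem)

/-- Lower bound for the ratio of consecutive terms. -/
lemma ratio_lower (K : ℕ) :
    ((Fintype.card V : ℤ) ^ 2 - K * (Fintype.card V + ∑ v, ∑ w, a G v w)) * (ind G K).card ≤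
      ((K : ℤ) + 1) * Fintype.card V * (ind G (K + 1)).card := by
  obtain ⟨n, hn⟩ : ∃ n : ℤ, n = Fintype.card V := ⟨_, rfl⟩
  obtain ⟨D, hD⟩ : ∃ D : ℤ, D = ∑ v, ∑ w, a G v w := ⟨_, rfl⟩
  have hn0 : 0 ≤ n := by rw [hn]; positivity
  induction K with
  | zero =>
    rw [card_one, ind_zero, Finset.card_singleton]
    push_cast
    nlinarith
  | succ k ih =>
    rcases Nat.eq_zero_or_pos k with hk | hk
    · subst hk
      have h1 := card_one G
      have h2 := card_two G
      simp only [Nat.zero_add] at *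
      rw [h1]
      rw [← hn, ← hD] at h2 ⊢
      push_cast
      have e2 : ((ind G (1 + 1)).card : ℤ) = (ind G 2).card := rfl
      rw [e2]
      nlinarith
    · rcases Nat.eq_zero_or_pos (ind G k).card with hA | hA
      · have hB := card_mono_zero G k hA
        rw [hB]
        have : (0 : ℤ) ≤ ((k + 1 : ℕ) + 1) * Fintype.card V * (ind G (k + 1 + 1)).card := by
          positivity
        simpa using this
      · have hmm := moon_moser G k
        have e2 : (ind G (k + 1 + 1)).card = (ind G (k + 2)).card := rfl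
        rw [e2]
        obtain ⟨A, hAd⟩ : ∃ A : ℤ, A = (ind G k).card := ⟨_, rfl⟩
        obtain ⟨B, hBd⟩ : ∃ B : ℤ, B = (ind G (k + 1)).card := ⟨_, rfl⟩
        obtain ⟨C, hCd⟩ : ∃ C : ℤ, C = (ind G (k + 2)).card := ⟨_, rfl⟩
        obtain ⟨t, ht⟩ : ∃ t : ℤ, t = k := ⟨_, rfl⟩
        rw [← hn, ← hAd, ← hBd, ← hCd, ← ht] at hmm
        rw [← hn, ← hD, ← hAd, ← hBd, ← ht] at ih
        push_cast
        rw [← hn, ← hD, ← hBd, ← hCd, ← ht]
        have hA1 : 1 ≤ A := by rw [hAd]; exact_mod_cast hA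
        have hB0 : 0 ≤ B := by rw [hBd]; positivity
        have ht1 : 1 ≤ t := by rw [ht]; exact_mod_cast hk
        -- multiply
        have e3 : n * ((t + 1) ^ 2 * B ^ 2) ≤ n * (A * (n * B + ((t + 1) ^ 2 - 1) * C)) :=
          mul_le_mul_of_nonneg_left hmm hn0
        have e4 : (t + 1) * B * ((n ^ 2 - t * (n + D)) * A) ≤
            (t + 1) * B * ((t + 1) * n * B) :=
          mul_le_mul_of_nonneg_left ih (mul_nonneg (by linarith) hB0)
        have e5 : (A * t) * ((n ^ 2 - (t + 1) * (n + D)) * B) ≤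
            (A * t) * ((t + 1 + 1) * n * C) := by
          have l1 : (A * t) * ((n ^ 2 - (t + 1) * (n + D)) * B) =
              (t + 1) * B * ((n ^ 2 - t * (n + D)) * A) - n ^ 2 * (A * B) := by ring
          have l2 : (A * t) * ((t + 1 + 1) * n * C) =
              n * (A * (n * B + ((t + 1) ^ 2 - 1) * C)) - n ^ 2 * (A * B) := by ring
          have l3 : (t + 1) * B * ((t + 1) * n * B) = n * ((t + 1) ^ 2 * B ^ 2) := by ring
          rw [l1, l2]
          linarith
        exact le_of_mul_le_mul_left e5 (mul_pos (by linarith) (by linarith))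

/-- The start of the sequence is nondecreasing. -/
lemma start (hV : 1 ≤ Fintype.card V) (K : ℕ)
    (hK : (K : ℤ) * (2 * Fintype.card V + ∑ v, ∑ w, a G v w) + Fintype.card V ≤
      (Fintype.card V : ℤ) ^ 2) :
    (ind G K).card ≤ (ind G (K + 1)).card := by
  have h := ratio_lower G K
  obtain ⟨n, hn⟩ : ∃ n : ℤ, n = Fintype.card V := ⟨_, rfl⟩
  obtain ⟨D, hD⟩ : ∃ D : ℤ, D = ∑ v, ∑ w, a G v w := ⟨_, rfl⟩
  rw [← hn, ← hD] at h hK
  have hn1 : 1 ≤ n := by rw [hn]; exact_mod_cast hV
  have hA0 : (0 : ℤ) ≤ (ind G K).card := by positivity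
  have e1 : ((K : ℤ) + 1) * n * (ind G K).card ≤ ((K : ℤ) + 1) * n * (ind G (K + 1)).card := by
    refine le_trans ?_ h
    refine mul_le_mul_of_nonneg_right ?_ hA0
    linarith
  have e2 := le_of_mul_le_mul_left e1 (mul_pos (by positivity) (by linarith))
  exact_mod_cast e2

end

end Pool.Agent.Helper920.Ratio
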