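import Pool.Agent.Helper920_Ratio.Main2

set_option autoImplicit false
set_option linter.unusedSectionVars false
set_option linter.unnecessarySeqFocus false
set_option linter.unusedSimpArgs false

namespace Pool.Agent.Helper920.Ratio

open Finset

noncomputable section

variable {V : Type*} [Fintype V] (G : SimpleGraph V)

lemma nI_one {J : Finset V} {w : V} (h : ∃ u ∈ J, G.Adj u w) : nI G J w = 1 := by
  unfold nI; rw [if_pos h]

lemma nI_zero {J : Finset V} {w : V} (h : ¬ ∃ u ∈ J, G.Adj u w) : nI G J w = 0 := by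
  unfold nI; rw [if_neg h]

lemma xI_pos {J : Finset V} {w : V} (h : w ∉ J ∧ ∀ t ∈ J, ¬ G.Adj t w) : xI G J w = 1 := by
  unfold xI; rw [if_pos h]

lemma xI_zero {J : Finset V} {w : V} (h : ¬ (w ∉ J ∧ ∀ t ∈ J, ¬ G.Adj t w)) : xI G J w = 0 := by
  unfold xI; rw [if_neg h]

open Classical in
/-- Pointwise effect of a swap on the free vertices. -/
lemma swap_pt {J : Finset V} {u v : V} (hu : u ∈ J) (hv : v ∈ X G J) (w : V) :
    xI G (insert v (J.erase u)) w ≤ xI G J w - gI G J v w - (if w = v then 1 else 0)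
      + (if w = u then 1 else 0) + pI G J u w := by
  have hv' := mem_X.1 hv
  have hp := pI_nonneg G J u w
  have hvu : v ≠ u := fun h => hv'.1 (h ▸ hu)
  by_cases hwv : w = v
  · subst hwv
    have h0 : xI G (insert w (J.erase u)) w = 0 :=
      xI_zero G (fun h => h.1 (Finset.mem_insert_self _ _))
    have h1 : xI G J w = 1 := xI_pos G hv'
    have h2 : gI G J w w = 0 := by
      unfold gI a
      rw [if_neg (G.loopless.irrefl w)]; ring
    rw [h0, h1, h2, if_pos rfl, if_neg hvu]
    linarith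
  · rw [if_neg hwv]
    by_cases hwu : w = u
    · subst hwu
      have h1 : xI G J w = 0 := xI_zero G (fun h => h.1 hu)
      have h2 : gI G J v w = 0 := by unfold gI; rw [h1]; ring
      rw [h1, h2, if_pos rfl]
      have := xI_le_one G (insert v (J.erase w)) w
      linarith
    · rw [if_neg hwu]
      by_cases hwJ : w ∈ J
      · have h0 : xI G (insert v (J.erase u)) w = 0 :=
          xI_zero G (fun h => h.1 (Finset.mem_insert_of_mem (Finset.mem_erase.2 ⟨hwu, hwJ⟩)))
        have h1 : xI G J w = 0 := xI_zero G (fun h => h.1 hwJ)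
        have h2 : gI G J v w = 0 := by unfold gI; rw [h1]; ring
        rw [h0, h1, h2]; linarith
      · by_cases hN : ∃ t ∈ J, G.Adj t w
        · have h1 : xI G J w = 0 := by
            refine xI_zero G (fun h => ?_)
            obtain ⟨t, ht, htw⟩ := hN
            exact h.2 t ht htw
          have h2 : gI G J v w = 0 := by unfold gI; rw [h1]; ring
          rw [h1, h2]
          by_cases hN' : ∃ t ∈ J.erase u, G.Adj t w
          · have h0 : xI G (insert v (J.erase u)) w = 0 := by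
              refine xI_zero G (fun h => ?_)
              obtain ⟨t, ht, htw⟩ := hN'
              exact h.2 t (Finset.mem_insert_of_mem ht) htw
            rw [h0]; linarith
          · have h3 : pI G J u w = 1 := by
              unfold pI
              rw [nI_one G hN, nI_zero G hN']; norm_num
            rw [h3]
            have := xI_le_one G (insert v (J.erase u)) w
            linarith
        · have h1 : xI G J w = 1 := xI_pos G ⟨hwJ, fun t ht htw => hN ⟨t, ht, htw⟩⟩
          have h2 : gI G J v w = a G v w := by unfold gI; rw [h1]; ring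
          rw [h1, h2]
          by_cases hadj : G.Adj v w
          · have h0 : xI G (insert v (J.erase u)) w = 0 :=
              xI_zero G (fun h => h.2 v (Finset.mem_insert_self _ _) hadj)
            have := a_le_one G v w
            rw [h0]; linarith
          · have h3 : a G v w = 0 := by unfold a; rw [if_neg hadj]
            rw [h3]
            have := xI_le_one G (insert v (J.erase u)) w
            linarith

open Classical in
lemma swap_card {J : Finset V} {u v : V} (hu : u ∈ J) (hv : v ∈ X G J) :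
    ((X G (insert v (J.erase u))).card : ℤ) ≤ (X G J).card - dX G J v + ∑ w, pI G J u w := by
  rw [← sum_xI, ← sum_xI]
  have h1 := Finset.sum_le_sum (s := Finset.univ) (fun w _ => swap_pt G hu hv w)
  rw [Finset.sum_add_distrib, Finset.sum_add_distrib, Finset.sum_sub_distrib,
    Finset.sum_sub_distrib, Finset.sum_ite_eq' Finset.univ v, Finset.sum_ite_eq' Finset.univ u,
    if_pos (Finset.mem_univ _), if_pos (Finset.mem_univ _)] at h1
  have h2 : ∑ w, gI G J v w = dX G J v := by
    unfold gI dX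
    refine Finset.sum_congr rfl fun w _ => ?_
    ring
  rw [h2] at h1
  linarith

open Classical in
/-- First swap inequality. -/
lemma swap_one (K : ℕ) :
    (K : ℤ) * ∑ J ∈ ind G K, S G (xI G J) (xI G J) ≤
      ∑ J ∈ ind G K, ((X G J).card : ℤ) * (Fintype.card V - K - (X G J).card) := by
  have hsw := swap G K (fun J => ((X G J).card : ℤ))
  have h1 : ∀ J ∈ ind G K, ∑ u ∈ J, ∑ v ∈ X G J, ((X G (insert v (J.erase u))).card : ℤ) ≤
      (∑ _u ∈ J, ∑ _v ∈ X G J, ((X G J).card : ℤ)) - K * S G (xI G J) (xI G J)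
        + ((X G J).card : ℤ) * (Fintype.card V - K - (X G J).card) := by
    intro J hJ
    have hJ' := mem_ind.1 hJ
    have h2 : ∑ u ∈ J, ∑ v ∈ X G J, ((X G (insert v (J.erase u))).card : ℤ) ≤
        ∑ u ∈ J, ∑ v ∈ X G J, (((X G J).card : ℤ) - dX G J v + ∑ w, pI G J u w) :=
      Finset.sum_le_sum fun u hu => Finset.sum_le_sum fun v hv => swap_card G hu hv
    refine h2.trans ?_
    have h3 : ∑ u ∈ J, ∑ v ∈ X G J, (((X G J).card : ℤ) - dX G J v + ∑ w, pI G J u w) =
        (∑ _u ∈ J, ∑ _v ∈ X G J, ((X G J).card : ℤ)) - (J.card : ℤ) * ∑ v ∈ X G J, dX G J v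
          + ((X G J).card : ℤ) * ∑ u ∈ J, ∑ w, pI G J u w := by
      simp only [Finset.sum_add_distrib, Finset.sum_sub_distrib, Finset.sum_const, nsmul_eq_mul,
        Finset.mul_sum]
    have h4 : ∑ v ∈ X G J, dX G J v = S G (xI G J) (xI G J) := by
      rw [sumX, EX_eq]
    have h5 : ∑ u ∈ J, ∑ w, pI G J u w ≤ (Fintype.card V : ℤ) - K - (X G J).card := by
      rw [Finset.sum_comm]
      have h6 := Finset.sum_le_sum (s := Finset.univ) (fun w _ => sum_pI G J w)
      have h7 := card_part G hJ'.1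
      rw [hJ'.2] at h7
      linarith
    rw [h3, h4, hJ'.2]
    have h8 := mul_le_mul_of_nonneg_left h5 (by positivity : (0 : ℤ) ≤ ((X G J).card : ℤ))
    linarith
  have h9 := Finset.sum_le_sum h1
  rw [hsw, Finset.sum_add_distrib, Finset.sum_sub_distrib, ← Finset.mul_sum] at h9
  linarith

open Classical in
/-- A set spanning few edges contains a large independent set. -/
lemma exists_indep : ∀ (n : ℕ) (Y : Finset V), Y.card = n → ∃ I ⊆ Y, Indep G I ∧
    2 * (Y.card : ℤ) ≤ 2 * I.card + ∑ y ∈ Y, ∑ z ∈ Y, a G y z := by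
  intro n
  induction n with
  | zero =>
    intro Y hY
    refine ⟨∅, Finset.empty_subset _, fun x hx => absurd hx (Finset.notMem_empty x), ?_⟩
    rw [hY]
    have : 0 ≤ ∑ y ∈ Y, ∑ z ∈ Y, a G y z :=
      Finset.sum_nonneg fun y _ => Finset.sum_nonneg fun z _ => a_nonneg G y z
    simpa using this
  | succ n ih =>
    intro Y hY
    by_cases hind : Indep G Y
    · refine ⟨Y, Finset.Subset.refl _, hind, ?_⟩
      have : 0 ≤ ∑ y ∈ Y, ∑ z ∈ Y, a G y z :=
        Finset.sum_nonneg fun y _ => Finset.sum_nonneg fun z _ => a_nonneg G y z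
      linarith
    · unfold Indep at hind
      push Not at hind
      obtain ⟨y, hy, z, hz, hyz⟩ := hind
      have hc : (Y.erase y).card = n := by
        rw [Finset.card_erase_of_mem hy, hY]; rfl
      obtain ⟨I, hI, hI2, hI3⟩ := ih (Y.erase y) hc
      refine ⟨I, hI.trans (Finset.erase_subset _ _), hI2, ?_⟩
      have hzy : z ≠ y := fun h => G.loopless.irrefl y (h ▸ hyz)
      have hz' : z ∈ Y.erase y := Finset.mem_erase.2 ⟨hzy, hz⟩
      have e1 : ∑ p ∈ Y, ∑ q ∈ Y, a G p q =
          ∑ q ∈ Y, a G y q + ∑ p ∈ Y.erase y, ∑ q ∈ Y, a G p q :=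
        (Finset.add_sum_erase Y (fun p => ∑ q ∈ Y, a G p q) hy).symm
      have e2 : ∀ p ∈ Y.erase y, ∑ q ∈ Y, a G p q = a G p y + ∑ q ∈ Y.erase y, a G p q :=
        fun p _ => (Finset.add_sum_erase Y (fun q => a G p q) hy).symm
      have e3 : (1 : ℤ) ≤ ∑ q ∈ Y, a G y q := by
        have h := Finset.single_le_sum (f := fun q => a G y q) (fun q _ => a_nonneg G y q) hz
        have h' : a G y z = 1 := by unfold a; rw [if_pos hyz]
        simp only [h'] at h
        exact h
      have e4 : (1 : ℤ) ≤ ∑ p ∈ Y.erase y, a G p y := by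
        have h := Finset.single_le_sum (f := fun p => a G p y) (fun q _ => a_nonneg G q y) hz'
        have h' : a G z y = 1 := by unfold a; rw [if_pos hyz.symm]
        simp only [h'] at h
        exact h
      rw [e1, Finset.sum_congr rfl e2, Finset.sum_add_distrib, hY]
      rw [hc] at hI3
      push_cast
      linarith

open Classical in
lemma card_bound (α K : ℕ) (hα : ∀ J : Finset V, Indep G J → J.card ≤ α) {J : Finset V}
    (hJ : J ∈ ind G K) :
    2 * ((X G J).card : ℤ) ≤ 2 * ((α : ℤ) - K) + S G (xI G J) (xI G J) := by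
  have hJ' := mem_ind.1 hJ
  obtain ⟨I, hI, hI2, hI3⟩ := exists_indep G (X G J).card (X G J) rfl
  have e1 : ∑ y ∈ X G J, ∑ z ∈ X G J, a G y z = S G (xI G J) (xI G J) := by
    rw [sumX]
    unfold S
    refine Finset.sum_congr rfl fun y _ => ?_
    rw [sumX, Finset.mul_sum]
    refine Finset.sum_congr rfl fun z _ => ?_
    ring
  have hdisj : Disjoint J I := by
    rw [Finset.disjoint_left]
    intro x hx hx2
    exact (mem_X.1 (hI hx2)).1 hx
  have hun : Indep G (J ∪ I) := by
    intro x hx y hy hxy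
    rw [Finset.mem_union] at hx hy
    rcases hx with hx | hx
    · rcases hy with hy | hy
      · exact hJ'.1 x hx y hy hxy
      · exact (mem_X.1 (hI hy)).2 x hx hxy
    · rcases hy with hy | hy
      · exact (mem_X.1 (hI hx)).2 y hy hxy.symm
      · exact hI2 x hx y hy hxy
  have h1 := hα _ hun
  rw [Finset.card_union_of_disjoint hdisj, hJ'.2] at h1
  have h2 : (K : ℤ) + I.card ≤ α := by exact_mod_cast h1
  rw [e1] at hI3
  linarith

lemma tail_num (A B k n al s s2 E : ℤ) (h1 : s = (k + 1) * B) (h2 : k * E ≤ (n - k) * s - s2)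
    (h4 : 2 * s ≤ 2 * (al - k) * A + E) (h5 : s ^ 2 ≤ A * s2) (hAB : A + 1 ≤ B) (hA1 : 1 ≤ A)
    (hk0 : 0 ≤ k) (hal1 : k + 1 ≤ al)
    (hKc : n * (k + 1) + 2 * al * k ≤ (2 * k + 1) * (3 * k + 1)) : False := by
  have e1 : k * (2 * s) ≤ k * (2 * (al - k) * A + E) := mul_le_mul_of_nonneg_left h4 hk0
  have e2 : (3 * k - n) * s + s2 ≤ 2 * k * (al - k) * A := by linarith
  have e3 : A * ((3 * k - n) * s + s2) ≤ A * (2 * k * (al - k) * A) :=
    mul_le_mul_of_nonneg_left e2 (by linarith)
  have h6 : s * (s + (3 * k - n) * A) ≤ 2 * k * (al - k) * (A * A) := by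
    have e4 : s * (s + (3 * k - n) * A) = s ^ 2 + (3 * k - n) * s * A := by ring
    rw [e4]
    linarith
  obtain ⟨y0, hy0⟩ : ∃ y0 : ℤ, y0 = (k + 1) * A := ⟨_, rfl⟩
  obtain ⟨c, hc⟩ : ∃ c : ℤ, c = (3 * k - n) * A := ⟨_, rfl⟩
  have h7 : y0 + 1 ≤ s := by
    have : (k + 1) * (A + 1) ≤ (k + 1) * B := mul_le_mul_of_nonneg_left hAB (by linarith)
    rw [hy0, h1]; linarith
  have hy0pos : 1 ≤ y0 := by
    have : 1 * 1 ≤ (k + 1) * A := mul_le_mul (by linarith) hA1 (by norm_num) (by linarith)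
    rw [hy0]; linarith
  have h8 : 2 * k * (al - k) * (A * A) ≤ y0 * (y0 + c) := by
    have e5 : 0 ≤ ((2 * k + 1) * (3 * k + 1) - (n * (k + 1) + 2 * al * k)) * (A * A) :=
      mul_nonneg (by linarith) (mul_nonneg (by linarith) (by linarith))
    have e6 : y0 * (y0 + c) = 2 * k * (al - k) * (A * A) +
        ((2 * k + 1) * (3 * k + 1) - (n * (k + 1) + 2 * al * k)) * (A * A) := by
      rw [hy0, hc]; ring
    linarith
  have hnn : 0 ≤ 2 * k * (al - k) * (A * A) :=
    mul_nonneg (mul_nonneg (by linarith) (by linarith)) (mul_nonneg (by linarith) (by linarith))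
  have h9 : 0 ≤ y0 + c := by
    by_contra hneg
    push Not at hneg
    have := mul_neg_of_pos_of_neg (by linarith : (0 : ℤ) < y0) hneg
    linarith
  rw [← hc] at h6
  have h10 : (y0 + 1) * (y0 + 1 + c) ≤ s * (s + c) :=
    mul_le_mul h7 (by linarith) (by linarith) (by linarith)
  have h11 : (y0 + 1) * (y0 + 1 + c) = y0 * (y0 + c) + y0 + (y0 + c) + 1 := by ring
  linarith

/-- The tail theorem. -/
lemma tail (α K : ℕ) (hα : ∀ J : Finset V, Indep G J → J.card ≤ α)
    (hK : Fintype.card V * (K + 1) + 2 * α * K ≤ (2 * K + 1) * (3 * K + 1)) :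
    (ind G (K + 1)).card ≤ (ind G K).card := by
  classical
  by_contra hcon
  push Not at hcon
  obtain ⟨s, hs⟩ : ∃ s : ℤ, s = ∑ J ∈ ind G K, ((X G J).card : ℤ) := ⟨_, rfl⟩
  obtain ⟨s2, hs2⟩ : ∃ s2 : ℤ, s2 = ∑ J ∈ ind G K, ((X G J).card : ℤ) ^ 2 := ⟨_, rfl⟩
  obtain ⟨E, hE⟩ : ∃ E : ℤ, E = ∑ J ∈ ind G K, S G (xI G J) (xI G J) := ⟨_, rfl⟩
  have h1 : s = (K + 1) * (ind G (K + 1)).card := by
    rw [hs]
    exact_mod_cast sum_card_X G K
  have h2 := swap_one G K
  rw [← hE] at h2
  have h3 : ∑ J ∈ ind G K, ((X G J).card : ℤ) * (Fintype.card V - K - (X G J).card) =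
      (Fintype.card V - K) * s - s2 := by
    rw [hs, hs2, Finset.mul_sum, ← Finset.sum_sub_distrib]
    refine Finset.sum_congr rfl fun J _ => ?_
    ring
  rw [h3] at h2
  have h4 : 2 * s ≤ 2 * ((α : ℤ) - K) * (ind G K).card + E := by
    have h := Finset.sum_le_sum (fun J hJ => card_bound G α K hα (J := J) hJ)
    rw [← Finset.mul_sum, Finset.sum_add_distrib, Finset.sum_const, nsmul_eq_mul, ← hs, ← hE] at h
    linarith
  have h5 : s ^ 2 ≤ (ind G K).card * s2 := by
    rw [hs, hs2]
    exact sq_sum_le_card_mul_sum_sq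
  obtain ⟨A, hA⟩ : ∃ A : ℤ, A = (ind G K).card := ⟨_, rfl⟩
  obtain ⟨B, hB⟩ : ∃ B : ℤ, B = (ind G (K + 1)).card := ⟨_, rfl⟩
  obtain ⟨k, hk⟩ : ∃ k : ℤ, k = K := ⟨_, rfl⟩
  obtain ⟨n, hn⟩ : ∃ n : ℤ, n = Fintype.card V := ⟨_, rfl⟩
  obtain ⟨al, hal⟩ : ∃ al : ℤ, al = α := ⟨_, rfl⟩
  have hAB : A + 1 ≤ B := by rw [hA, hB]; exact_mod_cast hcon
  have hA0 : 0 ≤ A := by rw [hA]; positivity
  have hk0 : 0 ≤ k := by rw [hk]; positivity
  have hKc : n * (k + 1) + 2 * al * k ≤ (2 * k + 1) * (3 * k + 1) := by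
    rw [hn, hk, hal]; exact_mod_cast hK
  rw [← hA, ← hk, ← hal] at h4
  rw [← hk, ← hn] at h2
  rw [← hA] at h5
  rw [← hk, ← hB] at h1
  -- `A` is positive
  have hA1 : 1 ≤ A := by
    by_contra hneg
    have hA00 : A = 0 := by omega
    have hne : (ind G (K + 1)).card ≠ 0 := by
      have : (0 : ℤ) < (ind G (K + 1)).card := by rw [← hB]; linarith
      exact_mod_cast this.ne'
    obtain ⟨J, hJ⟩ := Finset.card_pos.1 (Nat.pos_of_ne_zero hne)
    have hJ' := mem_ind.1 hJ
    obtain ⟨u, hu⟩ : J.Nonempty := by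
      rw [← Finset.card_pos, hJ'.2]; omega
    have hmem : J.erase u ∈ ind G K := by
      rw [mem_ind]
      refine ⟨fun x hx y hy => hJ'.1 x (Finset.mem_of_mem_erase hx) y (Finset.mem_of_mem_erase hy),
        ?_⟩
      rw [Finset.card_erase_of_mem hu, hJ'.2]; rfl
    have : (ind G K).card ≠ 0 := Finset.card_ne_zero_of_mem hmem
    apply this
    have h0 : ((ind G K).card : ℤ) = 0 := by rw [← hA]; exact hA00
    exact_mod_cast h0
  -- `al ≥ k + 1`
  have hal1 : k + 1 ≤ al := by
    have hne : (ind G (K + 1)).card ≠ 0 := by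
      have : (0 : ℤ) < (ind G (K + 1)).card := by rw [← hB]; linarith
      exact_mod_cast this.ne'
    obtain ⟨J, hJ⟩ := Finset.card_pos.1 (Nat.pos_of_ne_zero hne)
    have hJ' := mem_ind.1 hJ
    have := hα J hJ'.1
    rw [hJ'.2] at this
    rw [hk, hal]; exact_mod_cast this
  -- combine
  exact tail_num A B k n al s s2 E h1 h2 h4 h5 hAB hA1 hk0 hal1 hKc

end

end Pool.Agent.Helper920.Ratio
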