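import Pool.Agent.Helper920_Ratio.Tail

set_option autoImplicit false
set_option linter.unusedSectionVars false
set_option linter.unnecessarySeqFocus false
set_option linter.unusedSimpArgs false

namespace Pool.Agent.Helper920.Ratio

open Finset

noncomputable section

variable {V : Type*} [Fintype V] (G : SimpleGraph V)

lemma consec (m : ℤ) : 0 ≤ m * (m - 1) := by
  rcases le_or_gt m 0 with h | h
  · exact mul_nonneg_of_nonpos_of_nonpos h (by linarith)
  · exact mul_nonneg h.le (by linarith)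

lemma a_self (v : V) : a G v v = 0 := by
  unfold a; rw [if_neg (G.loopless.irrefl v)]

open Classical in
/-- A piecewise linear form of Turan's theorem. -/
lemma turan_ind (t : ℕ) : ∀ (n : ℕ) (Y : Finset V), Y.card = n → ∃ I ⊆ Y, Indep G I ∧
    2 * (t : ℤ) * Y.card ≤ t * (t + 1) * I.card + ∑ y ∈ Y, ∑ z ∈ Y, a G y z := by
  intro n
  induction n using Nat.strong_induction_on with
  | _ n ih =>
    intro Y hY
    rcases Y.eq_empty_or_nonempty with hE | hne
    · subst hE
      exact ⟨∅, Finset.Subset.refl _, fun x hx => absurd hx (Finset.notMem_empty x), by simp⟩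
    · obtain ⟨v, hv, hmin⟩ := Finset.exists_min_image Y (fun y => ∑ z ∈ Y, a G y z) hne
      obtain ⟨δ, hδ⟩ : ∃ δ : ℤ, δ = ∑ z ∈ Y, a G v z := ⟨_, rfl⟩
      obtain ⟨R, hR⟩ : ∃ R : Finset V, R = insert v (Y.filter (fun w => G.Adj v w)) := ⟨_, rfl⟩
      have hRY : R ⊆ Y := by
        rw [hR]
        intro w hw
        rw [Finset.mem_insert] at hw
        rcases hw with rfl | hw
        · exact hv
        · exact (Finset.mem_filter.1 hw).1
      have hRc : (R.card : ℤ) = δ + 1 := by
        rw [hR, Finset.card_insert_of_notMem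
          (fun h => G.loopless.irrefl v (Finset.mem_filter.1 h).2), hδ]
        unfold a
        rw [Finset.sum_ite, Finset.sum_const_zero, add_zero, Finset.sum_const]
        simp
      obtain ⟨Y', hY'⟩ : ∃ Y' : Finset V, Y' = Y \ R := ⟨_, rfl⟩
      have hvR : v ∈ R := by rw [hR]; exact Finset.mem_insert_self _ _
      have hcard : (Y'.card : ℤ) = Y.card - (δ + 1) := by
        rw [hY', ← hRc, Finset.card_sdiff_of_subset hRY, Nat.cast_sub (Finset.card_le_card hRY)]
      have hlt : Y'.card < n := by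
        rw [← hY, hY']
        exact Finset.card_lt_card (Finset.sdiff_ssubset hRY ⟨v, hvR⟩)
      obtain ⟨I', hI1, hI2, hI3⟩ := ih Y'.card hlt Y' rfl
      have hI'Y : ∀ w ∈ I', w ∈ Y ∧ w ∉ R := by
        intro w hw
        have := hI1 hw
        rw [hY'] at this
        exact Finset.mem_sdiff.1 this
      have hnadj : ∀ w ∈ I', ¬ G.Adj v w := by
        intro w hw hadj
        refine (hI'Y w hw).2 ?_
        rw [hR]
        exact Finset.mem_insert_of_mem (Finset.mem_filter.2 ⟨(hI'Y w hw).1, hadj⟩)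
      have hvI : v ∉ I' := fun h => (hI'Y v h).2 hvR
      refine ⟨insert v I', ?_, ?_, ?_⟩
      · intro w hw
        rw [Finset.mem_insert] at hw
        rcases hw with rfl | hw
        · exact hv
        · exact (hI'Y w hw).1
      · intro x hx y hy hxy
        rw [Finset.mem_insert] at hx hy
        rcases hx with rfl | hx
        · rcases hy with rfl | hy
          · exact G.loopless.irrefl _ hxy
          · exact hnadj y hy hxy
        · rcases hy with rfl | hy
          · exact hnadj x hx hxy.symm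
          · exact hI2 x hx y hy hxy
      · -- edge count
        have s1 : ∀ f : V → ℤ, ∑ y ∈ Y, f y = ∑ y ∈ Y', f y + ∑ y ∈ R, f y := by
          intro f
          rw [hY', Finset.sum_sdiff hRY]
        have e1 : ∑ y ∈ Y, ∑ z ∈ Y, a G y z =
            ∑ y ∈ Y', ∑ z ∈ Y', a G y z + ∑ y ∈ Y', ∑ z ∈ R, a G y z + ∑ y ∈ R, ∑ z ∈ Y, a G y z := by
          rw [s1 (fun y => ∑ z ∈ Y, a G y z)]
          have : ∑ y ∈ Y', ∑ z ∈ Y, a G y z =
              ∑ y ∈ Y', ∑ z ∈ Y', a G y z + ∑ y ∈ Y', ∑ z ∈ R, a G y z := by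
            rw [← Finset.sum_add_distrib]
            refine Finset.sum_congr rfl fun y _ => ?_
            rw [s1 (fun z => a G y z)]
          rw [this]
        have e2 : ∑ y ∈ Y', ∑ z ∈ R, a G y z =
            ∑ y ∈ R, ∑ z ∈ Y, a G y z - ∑ y ∈ R, ∑ z ∈ R, a G y z := by
          rw [Finset.sum_comm, ← Finset.sum_sub_distrib]
          refine Finset.sum_congr rfl fun y _ => ?_
          rw [s1 (fun z => a G y z), add_sub_cancel_right]
          refine Finset.sum_congr rfl fun z _ => ?_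
          exact a_comm G z y
        have e3 : (R.card : ℤ) * δ ≤ ∑ y ∈ R, ∑ z ∈ Y, a G y z := by
          rw [← nsmul_eq_mul, ← Finset.sum_const]
          refine Finset.sum_le_sum fun y hy => ?_
          rw [hδ]
          exact hmin y (hRY hy)
        have e4 : ∑ y ∈ R, ∑ z ∈ R, a G y z ≤ (R.card : ℤ) * δ := by
          rw [← nsmul_eq_mul, ← Finset.sum_const]
          refine Finset.sum_le_sum fun y hy => ?_
          rw [← Finset.add_sum_erase R (fun z => a G y z) hy, a_self, zero_add]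
          have : ∑ z ∈ R.erase y, a G y z ≤ ∑ _z ∈ R.erase y, (1 : ℤ) :=
            Finset.sum_le_sum fun z _ => a_le_one G y z
          refine this.trans ?_
          rw [Finset.sum_const, nsmul_eq_mul, mul_one, Finset.card_erase_of_mem hy,
            Nat.cast_sub (Finset.card_pos.2 ⟨y, hy⟩), hRc]
          simp
        rw [hRc] at e3 e4
        have e5 := consec ((t : ℤ) - δ)
        rw [Finset.card_insert_of_notMem hvI]
        push_cast
        rw [hcard] at hI3
        nlinarith

open Classical in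
lemma card_bound_t (t α K : ℕ) (hα : ∀ J : Finset V, Indep G J → J.card ≤ α) {J : Finset V}
    (hJ : J ∈ ind G K) :
    2 * (t : ℤ) * ((X G J).card : ℤ) ≤ t * (t + 1) * ((α : ℤ) - K) + S G (xI G J) (xI G J) := by
  have hJ' := mem_ind.1 hJ
  obtain ⟨I, hI, hI2, hI3⟩ := turan_ind G t (X G J).card (X G J) rfl
  have e1 : ∑ y ∈ X G J, ∑ z ∈ X G J, a G y z = S G (xI G J) (xI G J) := by
    rw [sumX]
    unfold S
    refine Finset.sum_congr rfl fun y _ => ?_
    rw [sumX, Finset.mul_sum]
    refine Finset.sum_congr rfl fun z _ => ?_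
    ring
  have hdisj : Disjoint J I := by
    rw [Finset.disjoint_left]
    intro x hx hx2
    exact (mem_X.1 (hI hx2)).1 hx
  have hun : Indep G (J ∪ I) := by
    intro x hx y hy hxy
    rw [Finset.mem_union] at hx hy
    rcases hx with hx | hx
    · rcases hy with hy | hy
      · exact hJ'.1 x hx y hy hxy
      · exact (mem_X.1 (hI hy)).2 x hx hxy
    · rcases hy with hy | hy
      · exact (mem_X.1 (hI hx)).2 y hy hxy.symm
      · exact hI2 x hx y hy hxy
  have h1 := hα _ hun
  rw [Finset.card_union_of_disjoint hdisj, hJ'.2] at h1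
  have h2 : (I.card : ℤ) ≤ α - K := by
    have : (K : ℤ) + I.card ≤ α := by exact_mod_cast h1
    linarith
  have h3 : (t : ℤ) * (t + 1) * I.card ≤ t * (t + 1) * ((α : ℤ) - K) :=
    mul_le_mul_of_nonneg_left h2 (by positivity)
  rw [e1] at hI3
  linarith

lemma tail_num_t (t A B k n al s s2 E : ℤ) (ht : 0 ≤ t) (h1 : s = (k + 1) * B)
    (h2 : k * E ≤ (n - k) * s - s2)
    (h4 : 2 * t * s ≤ t * (t + 1) * (al - k) * A + E) (h5 : s ^ 2 ≤ A * s2) (hAB : A + 1 ≤ B)
    (hA1 : 1 ≤ A) (hk0 : 0 ≤ k) (hal1 : k + 1 ≤ al)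
    (hKc : n * (k + 1) + t * (t + 1) * al * k ≤ ((t + 1) * k + 1) * ((t + 2) * k + 1)) :
    False := by
  have e1 : k * (2 * t * s) ≤ k * (t * (t + 1) * (al - k) * A + E) :=
    mul_le_mul_of_nonneg_left h4 hk0
  have e2 : ((2 * t + 1) * k - n) * s + s2 ≤ t * (t + 1) * k * (al - k) * A := by linarith
  have e3 : A * (((2 * t + 1) * k - n) * s + s2) ≤ A * (t * (t + 1) * k * (al - k) * A) :=
    mul_le_mul_of_nonneg_left e2 (by linarith)
  have h6 : s * (s + ((2 * t + 1) * k - n) * A) ≤ t * (t + 1) * k * (al - k) * (A * A) := by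
    have e4 : s * (s + ((2 * t + 1) * k - n) * A) = s ^ 2 + ((2 * t + 1) * k - n) * s * A := by
      ring
    rw [e4]
    linarith
  obtain ⟨y0, hy0⟩ : ∃ y0 : ℤ, y0 = (k + 1) * A := ⟨_, rfl⟩
  obtain ⟨c, hc⟩ : ∃ c : ℤ, c = ((2 * t + 1) * k - n) * A := ⟨_, rfl⟩
  have h7 : y0 + 1 ≤ s := by
    have : (k + 1) * (A + 1) ≤ (k + 1) * B := mul_le_mul_of_nonneg_left hAB (by linarith)
    rw [hy0, h1]; linarith
  have hy0pos : 1 ≤ y0 := by
    have : 1 * 1 ≤ (k + 1) * A := mul_le_mul (by linarith) hA1 (by norm_num) (by linarith)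
    rw [hy0]; linarith
  have h8 : t * (t + 1) * k * (al - k) * (A * A) ≤ y0 * (y0 + c) := by
    have e5 : 0 ≤ (((t + 1) * k + 1) * ((t + 2) * k + 1) -
        (n * (k + 1) + t * (t + 1) * al * k)) * (A * A) :=
      mul_nonneg (by linarith) (mul_nonneg (by linarith) (by linarith))
    have e6 : y0 * (y0 + c) = t * (t + 1) * k * (al - k) * (A * A) +
        (((t + 1) * k + 1) * ((t + 2) * k + 1) -
        (n * (k + 1) + t * (t + 1) * al * k)) * (A * A) := by
      rw [hy0, hc]; ring
    linarith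
  have hnn : 0 ≤ t * (t + 1) * k * (al - k) * (A * A) :=
    mul_nonneg (mul_nonneg (mul_nonneg (mul_nonneg ht (by linarith)) hk0) (by linarith))
      (mul_nonneg (by linarith) (by linarith))
  have h9 : 0 ≤ y0 + c := by
    by_contra hneg
    push Not at hneg
    have := mul_neg_of_pos_of_neg (by linarith : (0 : ℤ) < y0) hneg
    linarith
  rw [← hc] at h6
  have h10 : (y0 + 1) * (y0 + 1 + c) ≤ s * (s + c) :=
    mul_le_mul h7 (by linarith) (by linarith) (by linarith)
  have h11 : (y0 + 1) * (y0 + 1 + c) = y0 * (y0 + c) + y0 + (y0 + c) + 1 := by ring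
  linarith

/-- The general tail theorem. -/
lemma tail_t (t α K : ℕ) (hα : ∀ J : Finset V, Indep G J → J.card ≤ α)
    (hK : Fintype.card V * (K + 1) + t * (t + 1) * α * K ≤
      ((t + 1) * K + 1) * ((t + 2) * K + 1)) :
    (ind G (K + 1)).card ≤ (ind G K).card := by
  classical
  by_contra hcon
  push Not at hcon
  obtain ⟨s, hs⟩ : ∃ s : ℤ, s = ∑ J ∈ ind G K, ((X G J).card : ℤ) := ⟨_, rfl⟩
  obtain ⟨s2, hs2⟩ : ∃ s2 : ℤ, s2 = ∑ J ∈ ind G K, ((X G J).card : ℤ) ^ 2 := ⟨_, rfl⟩
  obtain ⟨E, hE⟩ : ∃ E : ℤ, E = ∑ J ∈ ind G K, S G (xI G J) (xI G J) := ⟨_, rfl⟩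
  have h1 : s = (K + 1) * (ind G (K + 1)).card := by
    rw [hs]
    exact_mod_cast sum_card_X G K
  have h2 := swap_one G K
  rw [← hE] at h2
  have h3 : ∑ J ∈ ind G K, ((X G J).card : ℤ) * (Fintype.card V - K - (X G J).card) =
      (Fintype.card V - K) * s - s2 := by
    rw [hs, hs2, Finset.mul_sum, ← Finset.sum_sub_distrib]
    refine Finset.sum_congr rfl fun J _ => ?_
    ring
  rw [h3] at h2
  have h4 : 2 * (t : ℤ) * s ≤ t * (t + 1) * ((α : ℤ) - K) * (ind G K).card + E := by
    have h := Finset.sum_le_sum (fun J hJ => card_bound_t G t α K hα (J := J) hJ)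
    rw [← Finset.mul_sum, Finset.sum_add_distrib, Finset.sum_const, nsmul_eq_mul, ← hs, ← hE] at h
    linarith
  have h5 : s ^ 2 ≤ (ind G K).card * s2 := by
    rw [hs, hs2]
    exact sq_sum_le_card_mul_sum_sq
  have hBpos : (ind G (K + 1)).card ≠ 0 := by omega
  obtain ⟨J, hJ⟩ := Finset.card_pos.1 (Nat.pos_of_ne_zero hBpos)
  have hJ' := mem_ind.1 hJ
  have hA1 : 1 ≤ (ind G K).card := by
    obtain ⟨u, hu⟩ : J.Nonempty := by
      rw [← Finset.card_pos, hJ'.2]; omega
    refine Finset.card_pos.2 ⟨J.erase u, ?_⟩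
    rw [mem_ind]
    refine ⟨fun x hx y hy => hJ'.1 x (Finset.mem_of_mem_erase hx) y (Finset.mem_of_mem_erase hy),
      ?_⟩
    rw [Finset.card_erase_of_mem hu, hJ'.2]; rfl
  have hal1 : K + 1 ≤ α := by
    have := hα J hJ'.1
    rwa [hJ'.2] at this
  exact tail_num_t t (ind G K).card (ind G (K + 1)).card K (Fintype.card V) α s s2 E
    (by positivity) h1 h2 h4 h5 (by exact_mod_cast hcon) (by exact_mod_cast hA1) (by positivity)
    (by exact_mod_cast hal1) (by exact_mod_cast hK)

end

end Pool.Agent.Helper920.Ratio
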